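import Pool.Agent.W_MP_b5ad3e_nt.Real

set_option autoImplicit false

namespace Pool.Agent.W_MP_b5ad3e_nt

open Filter

noncomputable def CC (m : ℕ) : ℝ := Real.sqrt ((2:ℝ) ^ m - 1) / (2:ℝ) ^ m

lemma CC_nonneg (m : ℕ) : 0 ≤ CC m := by unfold CC; positivity

lemma CC_le_one (m : ℕ) : CC m ≤ 1 := by
  unfold CC
  have h1 : (1:ℝ) ≤ (2:ℝ) ^ m := one_le_pow₀ (by norm_num)
  rw [div_le_one (by positivity), Real.sqrt_le_left (by positivity)]
  nlinarith

lemma cc_eq (m : ℕ) (hm : 1 ≤ m) : cc m * Real.sqrt m = CC m := by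
  unfold cc CC
  have : 0 < Real.sqrt m := Real.sqrt_pos.2 (by exact_mod_cast hm)
  field_simp

lemma cc_le_one (m : ℕ) (hm : 1 ≤ m) : cc m ≤ 1 := by
  have h1 := cc_eq m hm
  have h2 := CC_le_one m
  have h3 : 1 ≤ Real.sqrt m := by
    rw [Real.one_le_sqrt]
    exact_mod_cast hm
  have h4 := cc_nonneg m
  nlinarith

/-- discrepancy bound at element boundaries -/
lemma Dl_bound (m k : ℕ) (hm : 1 ≤ m) (hk : k < 2 ^ m) :
    ∃ (E0 : ℝ) (i0 : ℕ), 0 ≤ E0 ∧ ∀ i, i0 ≤ i → m ∣ MM (tt i) ∧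
      |Dl m k (PP i / m)| ≤ E0 + cc m * SS i + AA i := by
  obtain ⟨t0, ht0⟩ := eventually_atTop.1 (dvd_MM m hm)
  refine ⟨|Dl m k (PP (idx t0) / m)|, idx t0, abs_nonneg _, ?_⟩
  intro i hi
  have hdvd : ∀ i, idx t0 ≤ i → m ∣ MM (tt i) := fun i hi => ht0 _ (tt_ge t0 i hi)
  refine ⟨hdvd i hi, ?_⟩
  induction i, hi using Nat.le_induction with
  | base =>
    have h1 := mul_nonneg (cc_nonneg m) (SS_nonneg (idx t0))
    have h2 := AA_nonneg (idx t0)
    linarith
  | succ i hi ih =>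
    have h1 := Dl_step m k i hm (hdvd i hi)
    have h2 := incr_bound m k i hm (hdvd i hi) hk
    rw [h1]
    have h3 := abs_add_le (Dl m k (PP i / m)) (D (2 ^ m) k (ln i / m) (aa i))
    have : cc m * (SS (i + 1) - SS i) = cc m * SS (i + 1) - cc m * SS i := by ring
    linarith

lemma AA_le (i : ℕ) : AA i ≤ 2 * tau (PP i) ^ 3 := by
  unfold AA
  have h1 := tt_tau i
  have h2 : (0:ℝ) ≤ tt i := by positivity
  have : ((tt i : ℝ) + 17) ^ 3 ≤ tau (PP i) ^ 3 := pow_le_pow_left₀ (by linarith) (by linarith) 3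
  linarith

lemma ln_le_tau (i : ℕ) : (ln i : ℝ) ≤ 2 * tau (PP i) ^ 3 := by
  have h1 := tt_tau i
  have h2 : (0:ℝ) ≤ tt i := by positivity
  have h6 : (ln i : ℝ) ≤ 2 * ((tt i : ℝ) + 17) ^ 2 := by exact_mod_cast ln_le i
  have h8 : ((tt i : ℝ) + 17) ^ 2 ≤ tau (PP i) ^ 2 := by
    apply pow_le_pow_left₀ (by linarith) (by linarith)
  have h9 : tau (PP i) ^ 2 ≤ tau (PP i) ^ 3 := by
    have : 1 ≤ tau (PP i) := by linarith
    nlinarith [sq_nonneg (tau (PP i))]
  linarith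

theorem upper (m k : ℕ) (hm : 1 ≤ m) (hk : k < 2 ^ m) (ε : ℝ) (hε : 0 < ε) :
    ∀ᶠ n : ℕ in atTop, |Dl m k n| < (CC m + ε) * Phi n := by
  obtain ⟨E0, i0, hE0, hb⟩ := Dl_bound m k hm hk
  filter_upwards [Phi_mul_upper m hm (ε / 3) (by linarith),
    tau_small' m hm (E0 + 4) (ε / 3) (by linarith),
    eventually_ge_atTop (PP i0 + 16)] with n h1 h2 hn
  have hn16 : (16:ℝ) ≤ n := by
    have : 16 ≤ n := by omega
    exact_mod_cast this
  have hPhi : 0 < Phi n := lt_of_lt_of_le (Real.sqrt_pos.2 (by linarith)) (Phi_ge_sqrt hn16)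
  have hnm : n ≤ n * m := Nat.le_mul_of_pos_right _ hm
  -- the element containing position `n*m`
  have hspec : PP (ix (n * m)) ≤ n * m :=
    Nat.findGreatest_spec (P := fun i' => PP i' ≤ n * m) (m := 0) (Nat.zero_le _)
        (by simp [PP_zero])
  set i := ix (n * m) with hi
  have hi0 : i0 ≤ i := by
    apply Nat.le_findGreatest
    · exact (le_PP i0).trans (by omega)
    · omega
  have hlt : n * m < PP (i + 1) := by
    by_contra hcon
    push Not at hcon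
    have : i + 1 ≤ i := by
      apply Nat.le_findGreatest
      · exact (le_PP _).trans hcon
      · exact hcon
    omega
  obtain ⟨hdv, hbi⟩ := hb i hi0
  have hPd := PP_dvd i hdv
  have hle : PP i / m ≤ n := Nat.div_le_of_le_mul (by rw [mul_comm]; exact hspec)
  have hdiff : n - PP i / m ≤ ln i := by
    rw [PP_succ] at hlt
    obtain ⟨c, hc⟩ := hPd
    have hc' : PP i / m = c := by rw [hc, Nat.mul_div_cancel_left _ (by omega)]
    rw [hc'] at hle ⊢
    have h1 : (n - c) * m < ln i := by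
      rw [Nat.sub_mul]
      have h2 : c * m ≤ n * m := Nat.mul_le_mul_right _ hle
      have h3 : PP i = c * m := by rw [hc, mul_comm]
      omega
    have h4 : n - c ≤ (n - c) * m := Nat.le_mul_of_pos_right _ hm
    omega
  have h3 := Dl_between m k (PP i / m) n hle
  have h4 : ((n - PP i / m : ℕ) : ℝ) ≤ ln i := by exact_mod_cast hdiff
  have h5 : |Dl m k n| ≤ |Dl m k (PP i / m)| + ln i := by
    have := abs_sub_abs_le_abs_sub (Dl m k n) (Dl m k (PP i / m))
    linarith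
  have hcast : (PP i : ℝ) ≤ (n:ℝ) * m := by exact_mod_cast hspec
  have h6 : SS i ≤ Phi ((n:ℝ) * m) := by
    refine (SS_le i).trans ?_
    have := Phi_mono_nat hspec
    push_cast at this
    exact this
  have h7 : tau (PP i) ≤ tau ((n:ℝ) * m) := tau_mono (by positivity) hcast
  have h8 : tau (PP i) ^ 3 ≤ tau ((n:ℝ) * m) ^ 3 := by
    apply pow_le_pow_left₀ _ h7
    have := tau_ge (x := (PP i : ℝ)) (by positivity)
    linarith
  have h9 := AA_le i
  have h10 := ln_le_tau i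
  have h11 : cc m * SS i ≤ CC m * Phi n + (ε / 3) * Phi n := by
    have a1 : cc m * SS i ≤ cc m * ((1 + ε / 3) * (Real.sqrt m * Phi n)) :=
      mul_le_mul_of_nonneg_left (h6.trans h1) (cc_nonneg m)
    have a2 : cc m * ((1 + ε / 3) * (Real.sqrt m * Phi n)) = (1 + ε / 3) * (CC m * Phi n) := by
      rw [← cc_eq m hm]; ring
    have a3 : CC m * Phi n ≤ Phi n := by
      have := CC_le_one m
      nlinarith
    nlinarith
  have h12 : (0:ℝ) ≤ tau ((n:ℝ) * m) ^ 3 := by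
    have := tau_ge (x := (n:ℝ) * m) (by positivity)
    positivity
  have h13 : E0 + 4 * tau ((n:ℝ) * m) ^ 3 ≤ (E0 + 4) * (1 + tau ((n:ℝ) * m) ^ 3) := by
    nlinarith
  nlinarith

lemma sg_abs (b : Bool) (x : ℝ) : -|x| ≤ (sg b : ℝ) * x := by
  have h1 := neg_abs_le x
  have h2 := le_abs_self x
  cases b <;> simp [sg] <;> linarith

lemma dirJ_pair (x : ℕ × ℕ × Bool) (l : ℕ) : dirJ (Nat.pair (Encodable.encode x) l) = x := by
  unfold dirJ
  rw [Nat.unpair_pair]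
  simp [Encodable.encodek]

lemma run_dir (m k i j : ℕ) (b : Bool) (hm : m ∣ MM (tt i)) (hk : k < 2 ^ m)
    (hj : dirJ j = (m, k, b)) (h1 : 2 ^ 2 ^ j ≤ PP i) (h2 : PP i < (2 ^ 2 ^ j) ^ 2) :
    dS (st i) = (m, k, b) := by
  have e1 : 2 ^ j ≤ Nat.log 2 (PP i) := Nat.le_log_of_pow_le (by norm_num) h1
  have e2 : Nat.log 2 (PP i) < 2 ^ (j + 1) := by
    apply Nat.log_lt_of_lt_pow
    · have : 0 < 2 ^ 2 ^ j := by positivity
      omega
    · rw [pow_succ, pow_mul]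
      exact h2
  have e3 : Nat.log 2 (Nat.log 2 (PP i)) = j := Nat.log_eq_of_pow_le_of_lt_pow e1 e2
  unfold dS dir
  have e4 : (st i).P = PP i := rfl
  rw [e4, e3, hj]
  rw [if_pos]
  exact ⟨hm, hk⟩

lemma chain_real (sD c SSe SSs AAe AAs Ds Pnm Pn E0 E T ε C tte : ℝ)
    (hE0 : 0 ≤ E0) (hE : 0 ≤ E) (hc0 : 0 ≤ c) (hc1 : c ≤ 1) (hε : 0 < ε) (hε1 : ε ≤ 1)
    (hT18 : 18 ≤ T) (hPn : 0 < Pn) (hC0 : 0 ≤ C) (hC1 : C ≤ 1)
    (g1 : sD ≥ c * (SSe - SSs) - (AAe - AAs) - Ds)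
    (hDs : Ds ≤ E0 + c * SSs + AAs)
    (g2 : SSe ≤ Pnm)
    (hgap : Pnm - SSe ≤ E + 3 * (tte + 17))
    (htte : tte + 18 ≤ T)
    (hAAe : AAe ≤ 2 * T ^ 3)
    (g3 : SSs ≤ Pnm * (ε / 6))
    (g4 : C * Pn ≤ c * Pnm)
    (htau : (E0 + E + 7) * (1 + T ^ 3) ≤ ε / 3 * Pn) :
    (C - ε) * Pn < sD := by
  have hT3 : T ≤ T ^ 3 := le_self_pow₀ (by linarith) (by norm_num)
  have hT0 : 0 ≤ T ^ 3 := by positivity
  have c2 : c * (Pnm - SSe) ≤ 1 * (E + 3 * T) :=
    mul_le_mul hc1 (by linarith) (by linarith) (by norm_num)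
  have c2' : c * (Pnm - SSe) = c * Pnm - c * SSe := by ring
  have c3 : c * SSs ≤ c * (Pnm * (ε / 6)) := mul_le_mul_of_nonneg_left g3 hc0
  have c3' : c * (Pnm * (ε / 6)) = (c * Pnm) * (ε / 6) := by ring
  have c1' : c * (SSe - SSs) = c * SSe - c * SSs := by ring
  have c5 : (E0 + E + 7) * (1 + T ^ 3) ≥ E0 + E + 3 * T + 4 * T ^ 3 := by
    have : 0 ≤ (E0 + E) * T ^ 3 := by positivity
    nlinarith
  have f2 : sD ≥ (c * Pnm) * (1 - ε / 3) - (E0 + E + 3 * T + 4 * T ^ 3) := by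
    linarith
  have f3 : (C * Pn) * (1 - ε / 3) ≤ (c * Pnm) * (1 - ε / 3) :=
    mul_le_mul_of_nonneg_right g4 (by linarith)
  have f4 : C * Pn ≤ Pn := by nlinarith
  have f5 : (C * Pn) * (ε / 3) ≤ Pn * (ε / 3) :=
    mul_le_mul_of_nonneg_right f4 (by linarith)
  have f6 : 0 < ε / 3 * Pn := by positivity
  have f7 : (C - ε) * Pn = C * Pn - 3 * (ε / 3 * Pn) := by ring
  have f8 : (C * Pn) * (1 - ε / 3) = C * Pn - (C * Pn) * (ε / 3) := by ring
  linarith

theorem freq_aux (m k : ℕ) (b : Bool) (hm : 1 ≤ m) (hk : k < 2 ^ m) (ε : ℝ) (hε : 0 < ε)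
    (hε1 : ε ≤ 1) (N0 : ℕ) :
    ∃ n : ℕ, N0 ≤ n ∧ 16 ≤ n ∧ (CC m - ε) * Phi n < (sg b : ℝ) * Dl m k n := by
  obtain ⟨E0, i0, hE0, hb⟩ := Dl_bound m k hm hk
  obtain ⟨E, i1, hE, hgap⟩ := gap_bound
  obtain ⟨n2, hn2⟩ := eventually_atTop.1 (tau_small' m hm (E0 + E + 7) (ε / 3) (by linarith))
  obtain ⟨x2, hx2⟩ := eventually_atTop.1 (tau_small 2)
  obtain ⟨x3, hx3⟩ := exists_nat_ge (max x2 (72 / ε ^ 2))
  -- a large run
  set big := PP (i0 + i1) + m * (N0 + n2 + 16) + x3 + 16 with hbig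
  set j := Nat.pair (Encodable.encode (m, k, b)) big with hj
  have hjd : dirJ j = (m, k, b) := dirJ_pair _ _
  have hjbig : big ≤ j := Nat.right_le_pair _ _
  set X : ℕ := 2 ^ 2 ^ j with hX
  have hXj : j < X := lt_trans Nat.lt_two_pow_self Nat.lt_two_pow_self
  have hXbig : big < X := lt_of_le_of_lt hjbig hXj
  have hX16 : 16 ≤ X := by omega
  have hexs : ∃ i, X ≤ PP i := ⟨X, le_PP X⟩
  have hexe : ∃ i, X ^ 2 ≤ PP i := ⟨X ^ 2, le_PP _⟩
  classical
  set is := Nat.find hexs with his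
  set ie := Nat.find hexe with hie
  have hs1 : X ≤ PP is := Nat.find_spec hexs
  have he1 : X ^ 2 ≤ PP ie := Nat.find_spec hexe
  have hXX : X ≤ X ^ 2 := by nlinarith
  have hie_min : ∀ i, i < ie → PP i < X ^ 2 := by
    intro i hi
    have := Nat.find_min hexe hi
    omega
  have his_min : ∀ i, i < is → PP i < X := by
    intro i hi
    have := Nat.find_min hexs hi
    omega
  have hsle : is ≤ ie := by
    by_contra hcon
    push Not at hcon
    have := his_min ie hcon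
    omega
  have hi0s : i0 + i1 < is := by
    by_contra hcon
    push Not at hcon
    have := PP_strictMono.monotone hcon
    omega
  -- increments along the run
  have hrun : ∀ i, is ≤ i → i ≤ ie →
      cc m * (SS i - SS is) - (AA i - AA is)
        ≤ (sg b : ℝ) * (Dl m k (PP i / m) - Dl m k (PP is / m)) := by
    intro i hi
    induction i, hi using Nat.le_induction with
    | base => intro _; simp
    | succ i hi ih =>
      intro hle
      have h1 := ih (by omega)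
      have hdv := (hb i (by omega)).1
      have hXP : X ≤ PP i := hs1.trans (PP_strictMono.monotone hi)
      have hd := run_dir m k i j b hdv hk hjd hXP (hie_min i (by omega))
      have h2 := incr_dir m k i b hm hdv hk hd
      have h3 := Dl_step m k i hm hdv
      rw [h3]
      have e : (sg b : ℝ) * (Dl m k (PP i / m) + D (2 ^ m) k (ln i / m) (aa i)
          - Dl m k (PP is / m)) = (sg b : ℝ) * (Dl m k (PP i / m) - Dl m k (PP is / m))
            + (sg b : ℝ) * D (2 ^ m) k (ln i / m) (aa i) := by ring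
      rw [e]
      linarith
  have hmain := hrun ie hsle le_rfl
  obtain ⟨hdve, hbe⟩ := hb ie (by omega)
  obtain ⟨hdvs, hbs⟩ := hb is (by omega)
  have hPd := PP_dvd ie hdve
  obtain ⟨n, hn⟩ := hPd
  have hnm : PP ie / m = n := by rw [hn, Nat.mul_div_cancel_left _ (by omega)]
  have hcast : (PP ie : ℝ) = (n:ℝ) * m := by rw [hn]; push_cast; ring
  have hnbig : N0 + n2 + 16 ≤ n := by
    have h1 : m * (N0 + n2 + 16) ≤ PP ie := by omega
    rw [hn] at h1
    exact Nat.le_of_mul_le_mul_left h1 (by omega)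
  refine ⟨n, by omega, by omega, ?_⟩
  -- PP is ≤ 2 X
  have hPs : (PP is : ℝ) ≤ 2 * X := by
    obtain ⟨i', hi'⟩ : ∃ i', is = i' + 1 := ⟨is - 1, by omega⟩
    have h1 := his_min i' (by omega)
    have h2 : (PP i' : ℝ) ≤ X := by exact_mod_cast h1.le
    have h3 := ln_le_tau i'
    have h4 : tau (PP i') ≤ tau X := tau_mono (by positivity) h2
    have h5 : tau (PP i') ^ 3 ≤ tau X ^ 3 := by
      apply pow_le_pow_left₀ _ h4
      have := tau_ge (x := (PP i' : ℝ)) (by positivity)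
      linarith
    have hXx2 : x2 ≤ (X:ℝ) := by
      have a1 : (x3:ℝ) ≤ X := by
        have : x3 ≤ X := by omega
        exact_mod_cast this
      exact ((le_max_left _ _).trans hx3).trans a1
    have h6 := hx2 X hXx2
    have hX1 : (1:ℝ) ≤ X := by
      have : 1 ≤ X := by omega
      exact_mod_cast this
    have h7 : (X:ℝ) ^ ((1:ℝ)/4) ≤ X := by
      calc (X:ℝ) ^ ((1:ℝ)/4) ≤ (X:ℝ) ^ (1:ℝ) :=
            Real.rpow_le_rpow_of_exponent_le hX1 (by norm_num)
        _ = X := Real.rpow_one _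
    have h8 : PP is = PP i' + ln i' := by rw [hi', PP_succ]
    rw [h8]
    push_cast
    linarith
  have hX16' : (16:ℝ) ≤ X := by exact_mod_cast hX16
  have hPs3 : (3:ℝ) ≤ PP is := by
    have : (X:ℝ) ≤ PP is := by exact_mod_cast hs1
    linarith
  have hPe2 : (X:ℝ) ^ 2 ≤ PP ie := by exact_mod_cast he1
  have hrunPhi := Phi_run hX16' hPs3 hPs hPe2
  have hsq : Real.sqrt (2 / X) ≤ ε / 6 := by
    rw [Real.sqrt_le_left (by positivity)]
    have a1 : (x3:ℝ) ≤ X := by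
      have : x3 ≤ X := by omega
      exact_mod_cast this
    have a2 : 72 / ε ^ 2 ≤ X := ((le_max_right _ _).trans hx3).trans a1
    rw [div_le_iff₀ (by positivity)] at a2
    rw [div_le_iff₀ (by linarith)]
    nlinarith
  have hgap' := hgap ie (by omega)
  have hn16 : (16:ℝ) ≤ n := by
    have : 16 ≤ n := by omega
    exact_mod_cast this
  have hPhi : 0 < Phi n := lt_of_lt_of_le (Real.sqrt_pos.2 (by linarith)) (Phi_ge_sqrt hn16)
  have hlow := Phi_mul_lower m hm n (by omega)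
  have htau := hn2 n (by omega)
  rw [hnm] at hmain
  rw [hcast] at hgap' hrunPhi
  have hAAe := AA_le ie
  rw [hcast] at hAAe
  have hAAs : AA is ≤ AA ie := by
    unfold AA
    have : (tt is : ℝ) ≤ tt ie := by exact_mod_cast tt_mono hsle
    have h0 : (0:ℝ) ≤ tt is := by positivity
    have : ((tt is : ℝ) + 17) ^ 3 ≤ ((tt ie : ℝ) + 17) ^ 3 :=
      pow_le_pow_left₀ (by linarith) (by linarith) 3
    linarith
  have htte : (tt ie : ℝ) + 18 ≤ tau ((n:ℝ) * m) := by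
    have := tt_tau ie
    rwa [hcast] at this
  have hSSs := SS_le is
  have hc0 := cc_nonneg m
  have hc1 := cc_le_one m hm
  have hsgs := sg_abs b (Dl m k (PP is / m))
  set T := tau ((n:ℝ) * m) with hT
  have hT18 : 18 ≤ T := by
    have : (0:ℝ) ≤ tt ie := by positivity
    linarith
  have g1 : (sg b : ℝ) * Dl m k n
      ≥ cc m * (SS ie - SS is) - (AA ie - AA is) - |Dl m k (PP is / m)| := by
    have : (sg b : ℝ) * (Dl m k n - Dl m k (PP is / m))
        = (sg b : ℝ) * Dl m k n - (sg b : ℝ) * Dl m k (PP is / m) := by ring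
    linarith
  have g2 : SS ie ≤ Phi ((n:ℝ) * m) := by
    have h1 := SS_le ie
    rwa [hcast] at h1
  have g3 : SS is ≤ Phi ((n:ℝ) * m) * (ε / 6) := by
    refine hSSs.trans (hrunPhi.trans ?_)
    rw [mul_comm]
    exact mul_le_mul_of_nonneg_left hsq (Phi_nonneg _)
  have g4 : CC m * Phi n ≤ cc m * Phi ((n:ℝ) * m) := by
    rw [← cc_eq m hm, mul_assoc]
    exact mul_le_mul_of_nonneg_left hlow hc0
  exact chain_real _ (cc m) (SS ie) (SS is) (AA ie) (AA is) |Dl m k (PP is / m)|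
    (Phi ((n:ℝ) * m)) (Phi n) E0 E T ε (CC m) (tt ie) hE0 hE hc0 hc1 hε hε1 hT18 hPhi
    (CC_nonneg m) (CC_le_one m) g1 hbs g2 hgap' htte hAAe g3 g4 htau

theorem freq (m k : ℕ) (b : Bool) (hm : 1 ≤ m) (hk : k < 2 ^ m) (ε : ℝ) (hε : 0 < ε) (N0 : ℕ) :
    ∃ n : ℕ, N0 ≤ n ∧ 16 ≤ n ∧ (CC m - ε) * Phi n < (sg b : ℝ) * Dl m k n := by
  obtain ⟨n, h1, h2, h3⟩ := freq_aux m k b hm hk (min ε 1) (lt_min hε (by norm_num))
    (min_le_right _ _) N0
  refine ⟨n, h1, h2, lt_of_le_of_lt ?_ h3⟩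
  apply mul_le_mul_of_nonneg_right _ (Phi_nonneg _)
  have := min_le_left ε 1
  linarith

end Pool.Agent.W_MP_b5ad3e_nt
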