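import Mathlib

set_option autoImplicit false

namespace Pool.Agent.W_MP_b5ad3e_nt

open Filter

/-- auxiliary growth function -/
def g0 (s : ℕ) : ℕ := (s.factorial * 2 ^ s.factorial) ^ 4

/-- slowly growing index -/
def sl (t : ℕ) : ℕ := Nat.findGreatest (fun s => g0 s ≤ t + 16) t

def MM (t : ℕ) : ℕ := (sl t).factorial
def GG (t : ℕ) : ℕ := MM t * 2 ^ MM t
def NN (t : ℕ) : ℕ := (t + 16) ^ 2 / GG t + 1
/-- number of free permutation blocks -/
def qq (t : ℕ) : ℕ := NN t - 1 - GG t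
/-- number of digits of the elements of stage `t` -/
def nn (t : ℕ) : ℕ := GG t * NN t
def RR (t : ℕ) : ℕ := (2 ^ MM t).factorial ^ qq t

lemma g0_sl (t : ℕ) : g0 (sl t) ≤ t + 16 := by
  have h0 : g0 0 ≤ t + 16 := by
    simp [g0]
  exact Nat.findGreatest_spec (P := fun s => g0 s ≤ t + 16) (Nat.zero_le t) h0

lemma GG_pow (t : ℕ) : GG t ^ 4 ≤ t + 16 := g0_sl t

lemma MM_pos (t : ℕ) : 1 ≤ MM t := Nat.factorial_pos _

lemma GG_ge (t : ℕ) : 2 * MM t ≤ GG t := by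
  unfold GG
  have h : 2 ^ 1 ≤ 2 ^ MM t := Nat.pow_le_pow_right (by norm_num) (MM_pos t)
  calc 2 * MM t = MM t * 2 ^ 1 := by ring
    _ ≤ _ := Nat.mul_le_mul_left _ h

lemma GG_pos (t : ℕ) : 2 ≤ GG t := by
  have := GG_ge t
  have := MM_pos t
  omega

lemma sl_mono {t t' : ℕ} (h : t ≤ t') : sl t ≤ sl t' := by
  apply Nat.le_findGreatest
  · exact (Nat.findGreatest_le t).trans h
  · have := g0_sl t
    omega

lemma sl_ge (s : ℕ) : ∀ᶠ t in atTop, s ≤ sl t := by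
  filter_upwards [eventually_ge_atTop (max s (g0 s))] with t ht
  apply Nat.le_findGreatest
  · exact (le_max_left _ _).trans ht
  · have : g0 s ≤ t := (le_max_right _ _).trans ht
    omega

lemma MM_dvd {t t' : ℕ} (h : t ≤ t') : MM t ∣ MM t' := Nat.factorial_dvd_factorial (sl_mono h)

lemma MM_mono {t t' : ℕ} (h : t ≤ t') : MM t ≤ MM t' := Nat.le_of_dvd (MM_pos _) (MM_dvd h)

lemma GG_mono {t t' : ℕ} (h : t ≤ t') : GG t ≤ GG t' := by
  unfold GG
  exact Nat.mul_le_mul (MM_mono h) (Nat.pow_le_pow_right (by norm_num) (MM_mono h))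

lemma dvd_MM (m : ℕ) (hm : 1 ≤ m) : ∀ᶠ t in atTop, m ∣ MM t := by
  filter_upwards [sl_ge m] with t ht
  exact Nat.dvd_factorial hm ht

lemma MM_tendsto (s : ℕ) : ∀ᶠ t in atTop, s ≤ MM t := by
  filter_upwards [sl_ge s] with t ht
  exact ht.trans (Nat.self_le_factorial _)

lemma GG_sq (t : ℕ) : GG t ^ 2 * GG t ^ 2 ≤ t + 16 := by
  have := GG_pow t
  calc GG t ^ 2 * GG t ^ 2 = GG t ^ 4 := by ring
    _ ≤ _ := this

lemma GG_sq_le (t : ℕ) : GG t ^ 2 * 4 ≤ t + 16 := by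
  have h := GG_sq t
  have h2 : 4 ≤ GG t ^ 2 := by
    have := GG_pos t
    nlinarith
  nlinarith

lemma GG_le (t : ℕ) : GG t * 8 ≤ t + 16 := by
  have h := GG_sq_le t
  have h2 := GG_pos t
  nlinarith

lemma nn_lower (t : ℕ) : (t + 16) ^ 2 < nn t := by
  unfold nn NN
  have := Nat.lt_mul_div_succ ((t + 16) ^ 2) (by have := GG_pos t; omega : 0 < GG t)
  exact this

lemma nn_upper (t : ℕ) : nn t ≤ (t + 16) ^ 2 + GG t := by
  unfold nn NN
  have := Nat.mul_div_le ((t + 16) ^ 2) (GG t)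
  rw [mul_add, mul_one]
  omega

lemma NN_ge (t : ℕ) : 4 * (t + 16) < NN t := by
  have h1 := nn_lower t
  unfold nn at h1
  have h2 := GG_le t
  by_contra hcon
  push Not at hcon
  have h3 : GG t * NN t ≤ GG t * (4 * (t + 16)) := Nat.mul_le_mul_left _ hcon
  nlinarith

lemma NN_eq (t : ℕ) : NN t = qq t + 1 + GG t := by
  unfold qq
  have h1 := NN_ge t
  have h2 := GG_le t
  omega

lemma nn_eq (t : ℕ) : nn t = GG t * (1 + qq t + GG t) := by
  unfold nn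
  rw [NN_eq]
  ring

lemma qq_ge (t : ℕ) : t ≤ qq t := by
  have h1 := NN_ge t
  have h2 := GG_le t
  have h3 := NN_eq t
  omega

lemma nn_step (t : ℕ) : nn t + MM (t + 1) < nn (t + 1) := by
  have h1 := nn_upper t
  have h2 := nn_lower (t + 1)
  have h3 := GG_le t
  have h4 := GG_le (t + 1)
  have h5 := GG_ge (t + 1)
  have e : (t + 1 + 16) ^ 2 = (t + 16) ^ 2 + 2 * (t + 16) + 1 := by ring
  omega

lemma nn_strictMono : StrictMono nn := by
  apply strictMono_nat_of_lt_succ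
  intro t
  have := nn_step t
  omega

lemma MM_dvd_nn (t : ℕ) : MM t ∣ nn t := by
  unfold nn GG
  exact Dvd.dvd.mul_right (Dvd.dvd.mul_right (dvd_refl _) _) _

lemma nn_pos (t : ℕ) : 1 ≤ nn t := by
  have := nn_lower t
  omega

lemma RR_ge (t : ℕ) : 2 ^ t ≤ RR t := by
  unfold RR
  have h1 : 2 ≤ (2 ^ MM t).factorial := by
    have h : 2 ≤ 2 ^ MM t := by
      calc 2 = 2 ^ 1 := rfl
        _ ≤ _ := Nat.pow_le_pow_right (by norm_num) (MM_pos t)
    calc 2 = Nat.factorial 2 := rfl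
      _ ≤ _ := Nat.factorial_le h
  calc 2 ^ t ≤ 2 ^ qq t := Nat.pow_le_pow_right (by norm_num) (qq_ge t)
    _ ≤ _ := Nat.pow_le_pow_left h1 _

lemma nn_le_sq (t : ℕ) : nn t + MM (t + 1) ≤ 2 * (t + 17) ^ 2 := by
  have h1 := nn_upper t
  have h3 := GG_le t
  have h4 := GG_le (t + 1)
  have h5 := GG_ge (t + 1)
  nlinarith

/-! growth -/

lemma factorial_ge (K : ℕ) : (K:ℝ) ^ K ≤ (4:ℝ) ^ K * (K.factorial : ℝ) := by
  have h := Real.pow_div_factorial_le_exp (x := (K:ℝ)) (by positivity) K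
  have hpos : (0:ℝ) < (K.factorial : ℝ) := by exact_mod_cast Nat.factorial_pos K
  rw [div_le_iff₀ hpos] at h
  have he : Real.exp (K:ℝ) ≤ (4:ℝ) ^ K := by
    have : Real.exp 1 ≤ 4 := by
      have := Real.exp_one_lt_d9
      linarith
    calc Real.exp (K:ℝ) = Real.exp 1 ^ K := by rw [← Real.exp_nat_mul, mul_one]
      _ ≤ 4 ^ K := pow_le_pow_left₀ (Real.exp_pos _).le this _
  calc (K:ℝ) ^ K ≤ Real.exp K * K.factorial := h
    _ ≤ _ := mul_le_mul_of_nonneg_right he hpos.le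

lemma RR_lower (t : ℕ) :
    (2:ℝ) ^ (((MM t : ℝ) - 2) * (2 ^ MM t * qq t)) ≤ (RR t : ℝ) := by
  have h := factorial_ge (2 ^ MM t)
  set K := 2 ^ MM t with hK
  have hKr : ((K:ℕ):ℝ) = (2:ℝ) ^ (MM t : ℝ) := by
    rw [hK]; push_cast; rw [Real.rpow_natCast]
  have h4 : (4:ℝ) ^ K = (2:ℝ) ^ (2 * (K:ℝ)) := by
    rw [Real.rpow_mul (by norm_num)]
    norm_num
  have h1 : (2:ℝ) ^ (((MM t : ℝ) - 2) * K) ≤ (K.factorial : ℝ) := by
    have e : (K:ℝ) ^ K = (2:ℝ) ^ ((MM t : ℝ) * K) := by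
      rw [hKr, Real.rpow_mul (by norm_num), ← hKr, Real.rpow_natCast, hKr, Real.rpow_natCast]
    rw [e, h4] at h
    have e2 : (2:ℝ) ^ ((MM t : ℝ) * K) = (2:ℝ) ^ (2 * (K:ℝ)) * (2:ℝ) ^ (((MM t : ℝ) - 2) * K) := by
      rw [← Real.rpow_add (by norm_num)]
      congr 1
      ring
    rw [e2] at h
    exact le_of_mul_le_mul_left h (by positivity)
  unfold RR
  rw [← hK]
  push_cast
  have e3 : ((MM t : ℝ) - 2) * (2 ^ MM t * (qq t : ℝ)) = (((MM t : ℝ) - 2) * K) * (qq t : ℝ) := by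
    rw [hK]; push_cast; ring
  rw [e3, Real.rpow_mul (by norm_num), Real.rpow_natCast]
  exact pow_le_pow_left₀ (by positivity) h1 _

lemma growth (θ : ℝ) (h0 : 0 ≤ θ) (h1 : θ < 1) :
    ∀ᶠ t in atTop, (2:ℝ) ^ (θ * (nn (t + 1) : ℝ)) < (RR t : ℝ) := by
  obtain ⟨m0, hm0⟩ := exists_nat_gt (4 / (1 - θ))
  obtain ⟨t0, ht0⟩ := exists_nat_gt (20 / (1 - θ))
  have hθ : 0 < 1 - θ := by linarith
  filter_upwards [MM_tendsto (max m0 2), eventually_ge_atTop t0] with t hM ht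
  refine lt_of_lt_of_le ?_ (RR_lower t)
  apply Real.rpow_lt_rpow_of_exponent_lt (by norm_num)
  have hM2 : (2:ℝ) ≤ (MM t : ℝ) := by exact_mod_cast (le_max_right _ _).trans hM
  have hMm : (m0:ℝ) ≤ (MM t : ℝ) := by exact_mod_cast (le_max_left _ _).trans hM
  have hM4 : 4 < (1 - θ) * (MM t : ℝ) := by
    have : 4 / (1 - θ) < (MM t : ℝ) := lt_of_lt_of_le hm0 hMm
    rw [div_lt_iff₀ hθ] at this
    linarith
  set x : ℝ := (t:ℝ) + 16 with hx
  have hxt : 20 < (1 - θ) * x := by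
    have : 20 / (1 - θ) < (t : ℝ) := lt_of_lt_of_le ht0 (by exact_mod_cast ht)
    rw [div_lt_iff₀ hθ] at this
    nlinarith
  have hx16 : 16 ≤ x := by
    have : (0:ℝ) ≤ t := by positivity
    linarith
  -- upper bound for nn (t+1)
  have u1 : (nn (t + 1) : ℝ) ≤ (x + 1) ^ 2 + (x + 1) := by
    have a := nn_upper (t + 1)
    have b := GG_le (t + 1)
    have c : nn (t + 1) ≤ (t + 1 + 16) ^ 2 + (t + 1 + 16) := by omega
    have : (nn (t + 1) : ℝ) ≤ ((t:ℝ) + 1 + 16) ^ 2 + ((t:ℝ) + 1 + 16) := by exact_mod_cast c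
    rw [hx]
    linarith
  -- lower bound for the exponent
  have l1 : x ^ 2 - 2 * x ≤ (MM t : ℝ) * (2 ^ MM t * (qq t : ℝ)) := by
    have a := nn_lower t
    have b := nn_eq t
    have c := GG_sq_le t
    have d := GG_le t
    have e : (t + 16) ^ 2 < GG t + GG t * qq t + GG t ^ 2 := by
      calc (t + 16) ^ 2 < nn t := a
        _ = _ := by rw [b]; ring
    have f : (t + 16) ^ 2 < GG t * qq t + 2 * (t + 16) := by omega
    have g : ((t:ℝ) + 16) ^ 2 < (GG t : ℝ) * qq t + 2 * ((t:ℝ) + 16) := by exact_mod_cast f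
    have h : (GG t : ℝ) = (MM t : ℝ) * 2 ^ MM t := by
      unfold GG
      push_cast
      rfl
    rw [h] at g
    have : (MM t : ℝ) * (2 ^ MM t * (qq t : ℝ)) = (MM t : ℝ) * 2 ^ MM t * qq t := by ring
    rw [this, hx]
    linarith
  set E : ℝ := (2:ℝ) ^ MM t * (qq t : ℝ) with hE
  have hEpos : 0 ≤ E := by positivity
  -- (M-2) E ≥ ((1+θ)/2) M E
  have l2 : ((1 + θ) / 2) * ((MM t : ℝ) * E) ≤ ((MM t : ℝ) - 2) * E := by
    have : 0 ≤ ((MM t : ℝ) - 2 - (1 + θ) / 2 * (MM t : ℝ)) * E := by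
      apply mul_nonneg _ hEpos
      nlinarith
    nlinarith
  have l3 : ((1 + θ) / 2) * (x ^ 2 - 2 * x) ≤ ((1 + θ) / 2) * ((MM t : ℝ) * E) :=
    mul_le_mul_of_nonneg_left l1 (by linarith)
  have l4 : θ * ((x + 1) ^ 2 + (x + 1)) < ((1 + θ) / 2) * (x ^ 2 - 2 * x) := by
    have : (1 - θ) / 2 * x ^ 2 ≥ 10 * x := by nlinarith
    nlinarith
  have l5 : θ * (nn (t + 1) : ℝ) ≤ θ * ((x + 1) ^ 2 + (x + 1)) :=
    mul_le_mul_of_nonneg_left u1 h0
  linarith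

end Pool.Agent.W_MP_b5ad3e_nt
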