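import Pool.Agent.W_MP_b5ad3e_nt.Words
import Pool.Agent.W_MP_b5ad3e_nt.Params

set_option autoImplicit false

namespace Pool.Agent.W_MP_b5ad3e_nt

noncomputable def Yt (t : ℕ) : ℕ → ℕ := (word_seq (MM t) (MM_pos t) (qq t)).choose

lemma Yt_lt (t r r' : ℕ) (h : r < r') (h' : r' < RR t) : Yt t r < Yt t r' :=
  (word_seq (MM t) (MM_pos t) (qq t)).choose_spec.1 r r' h h'

lemma Yt_spec (t r : ℕ) (h : r < RR t) :
    Yt t r < (2 ^ MM t) ^ (2 ^ MM t * qq t) ∧ Bal (MM t) (2 ^ MM t * qq t) (Yt t r) :=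
  (word_seq (MM t) (MM_pos t) (qq t)).choose_spec.2 r h

noncomputable def vt (t : ℕ) : ℕ := (head_block (MM t) (MM_pos t)).choose

lemma vt_spec (t : ℕ) : 2 ^ (MM t * 2 ^ MM t - 1) ≤ vt t ∧ vt t < (2 ^ MM t) ^ (2 ^ MM t) ∧
    Bal (MM t) (2 ^ MM t) (vt t) := (head_block (MM t) (MM_pos t)).choose_spec

/-- admissible direction -/
def Adm (t m0 k0 : ℕ) (s : ℤ) : Prop := m0 ∣ MM t ∧ k0 < 2 ^ m0 ∧ (s = 1 ∨ s = -1 ∨ s = 0)

open Classical in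
noncomputable def ut (t m0 k0 : ℕ) (s : ℤ) : ℕ :=
  if h : Adm t m0 k0 s then
    (tilt_suffix (MM t) (MM_pos t) m0 (MM t / m0) k0 (Nat.mul_div_cancel' h.1) h.2.1 s
      h.2.2).choose
  else 0

lemma ut_spec (t m0 k0 : ℕ) (s : ℤ) (h : Adm t m0 k0 s) :
    ut t m0 k0 s < (2 ^ MM t) ^ (2 ^ MM t * (MM t * 2 ^ MM t)) ∧
      ∀ m Q k : ℕ, m * Q = MM t → k < 2 ^ m →
        D (2 ^ m) k (Q * (2 ^ MM t * (MM t * 2 ^ MM t))) (ut t m0 k0 s)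
          = (s : ℝ) * (2:ℝ) ^ m0 * ∑ W ∈ Finset.range (2 ^ MM t),
              D (2 ^ m0) k0 (MM t / m0) W * D (2 ^ m) k Q W := by
  unfold ut
  rw [dif_pos h]
  exact (tilt_suffix (MM t) (MM_pos t) m0 (MM t / m0) k0 (Nat.mul_div_cancel' h.1) h.2.1 s
      h.2.2).choose_spec

/-- the elements of stage `t` -/
noncomputable def elt (t r m0 k0 : ℕ) (s : ℤ) : ℕ :=
  (vt t * (2 ^ MM t) ^ (2 ^ MM t * qq t) + Yt t r) * (2 ^ MM t) ^ (2 ^ MM t * (MM t * 2 ^ MM t))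
    + ut t m0 k0 s

lemma head_lt (t r : ℕ) (h : r < RR t) :
    vt t * (2 ^ MM t) ^ (2 ^ MM t * qq t) + Yt t r
      < (2 ^ MM t) ^ (2 ^ MM t + 2 ^ MM t * qq t) := by
  have h1 := (vt_spec t).2.1
  have h2 := (Yt_spec t r h).1
  rw [pow_add]
  calc vt t * (2 ^ MM t) ^ (2 ^ MM t * qq t) + Yt t r
      < vt t * (2 ^ MM t) ^ (2 ^ MM t * qq t) + (2 ^ MM t) ^ (2 ^ MM t * qq t) := by omega
    _ = (vt t + 1) * (2 ^ MM t) ^ (2 ^ MM t * qq t) := by ring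
    _ ≤ _ := Nat.mul_le_mul_right _ h1

lemma elt_lt (t r m0 k0 : ℕ) (s : ℤ) (h : r < RR t) (ha : Adm t m0 k0 s) :
    elt t r m0 k0 s < 2 ^ nn t := by
  have h1 := head_lt t r h
  have h2 := (ut_spec t m0 k0 s ha).1
  have e : 2 ^ nn t = (2 ^ MM t) ^ (2 ^ MM t + 2 ^ MM t * qq t)
      * (2 ^ MM t) ^ (2 ^ MM t * (MM t * 2 ^ MM t)) := by
    rw [← pow_add, ← pow_mul, nn_eq]
    congr 1
    unfold GG
    ring
  rw [e]
  unfold elt
  set A := vt t * (2 ^ MM t) ^ (2 ^ MM t * qq t) + Yt t r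
  set C := (2 ^ MM t) ^ (2 ^ MM t * (MM t * 2 ^ MM t))
  calc A * C + ut t m0 k0 s < A * C + C := by omega
    _ = (A + 1) * C := by ring
    _ ≤ _ := Nat.mul_le_mul_right _ h1

lemma elt_ge (t r m0 k0 : ℕ) (s : ℤ) : 2 ^ (nn t - 1) ≤ elt t r m0 k0 s := by
  have h1 := (vt_spec t).1
  have hG : MM t * 2 ^ MM t = GG t := rfl
  have hGp := GG_pos t
  have e : 2 ^ (nn t - 1) = 2 ^ (MM t * 2 ^ MM t - 1) * (2 ^ MM t) ^ (2 ^ MM t * qq t)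
      * (2 ^ MM t) ^ (2 ^ MM t * (MM t * 2 ^ MM t)) := by
    rw [← pow_mul, ← pow_mul, ← pow_add, ← pow_add, nn_eq]
    congr 1
    have a1 : MM t * (2 ^ MM t * qq t) = GG t * qq t := by unfold GG; ring
    have a2 : MM t * (2 ^ MM t * (MM t * 2 ^ MM t)) = GG t * GG t := by unfold GG; ring
    rw [a1, a2, hG]
    have a3 : GG t * (1 + qq t + GG t) = GG t + GG t * qq t + GG t * GG t := by ring
    rw [a3]
    omega
  rw [e]
  unfold elt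
  have h2 : 2 ^ (MM t * 2 ^ MM t - 1) * (2 ^ MM t) ^ (2 ^ MM t * qq t)
      ≤ vt t * (2 ^ MM t) ^ (2 ^ MM t * qq t) + Yt t r :=
    (Nat.mul_le_mul_right _ h1).trans (Nat.le_add_right _ _)
  exact (Nat.mul_le_mul_right _ h2).trans (Nat.le_add_right _ _)

lemma elt_mono (t r r' m0 k0 m0' k0' : ℕ) (s s' : ℤ) (h : r < r') (h' : r' < RR t)
    (ha : Adm t m0 k0 s) :
    elt t r m0 k0 s < elt t r' m0' k0' s' := by
  have h1 := Yt_lt t r r' h h'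
  have h2 := (ut_spec t m0 k0 s ha).1
  unfold elt
  set C := (2 ^ MM t) ^ (2 ^ MM t * (MM t * 2 ^ MM t))
  set B := vt t * (2 ^ MM t) ^ (2 ^ MM t * qq t)
  calc (B + Yt t r) * C + ut t m0 k0 s < (B + Yt t r) * C + C := by omega
    _ = (B + (Yt t r + 1)) * C := by ring
    _ ≤ (B + Yt t r') * C := Nat.mul_le_mul_right _ (by omega)
    _ ≤ _ := Nat.le_add_right _ _

lemma elt_D (t r m0 k0 : ℕ) (s : ℤ) (h : r < RR t) (ha : Adm t m0 k0 s) (m Q k : ℕ)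
    (hmQ : m * Q = MM t) (hk : k < 2 ^ m) :
    D (2 ^ m) k (nn t / m) (elt t r m0 k0 s)
      = (s : ℝ) * (2:ℝ) ^ m0 * ∑ W ∈ Finset.range (2 ^ MM t),
              D (2 ^ m0) k0 (MM t / m0) W * D (2 ^ m) k Q W := by
  have hm : 1 ≤ m := by
    rcases Nat.eq_zero_or_pos m with h0 | h0
    · subst h0
      have := MM_pos t
      omega
    · exact h0
  have e : nn t / m = Q * (2 ^ MM t + 2 ^ MM t * qq t) + Q * (2 ^ MM t * (MM t * 2 ^ MM t)) := by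
    have : nn t = m * (Q * (2 ^ MM t + 2 ^ MM t * qq t)
        + Q * (2 ^ MM t * (MM t * 2 ^ MM t))) := by
      rw [nn_eq]
      unfold GG
      calc MM t * 2 ^ MM t * (1 + qq t + MM t * 2 ^ MM t)
          = (m * Q) * 2 ^ MM t * (1 + qq t + MM t * 2 ^ MM t) := by rw [hmQ]
        _ = _ := by ring
    rw [this, Nat.mul_div_cancel_left _ (by omega)]
  have hu := ut_spec t m0 k0 s ha
  have hb : Bal (MM t) (2 ^ MM t + 2 ^ MM t * qq t)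
      (vt t * (2 ^ MM t) ^ (2 ^ MM t * qq t) + Yt t r) :=
    Bal_add (vt_spec t).2.2 (Yt_spec t r h).2 (Yt_spec t r h).1
  have e2 : (2 ^ MM t) ^ (2 ^ MM t * (MM t * 2 ^ MM t))
      = (2 ^ m) ^ (Q * (2 ^ MM t * (MM t * 2 ^ MM t))) := by
    rw [← pow_mul, ← pow_mul]
    congr 1
    rw [← hmQ]
    ring
  rw [e]
  unfold elt
  have hlt := hu.1
  rw [e2] at hlt ⊢
  rw [D_add (by positivity) k _ _ _ _ hlt, hb m Q k hmQ hk, hu.2 m Q k hmQ hk, zero_add]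

/-- normalised constants -/
noncomputable def cc (m : ℕ) : ℝ := Real.sqrt ((2:ℝ) ^ m - 1) / ((2:ℝ) ^ m * Real.sqrt m)

noncomputable def hh (t m0 : ℕ) : ℝ :=
  (2:ℝ) ^ MM t * MM t * Real.sqrt ((2:ℝ) ^ m0 - 1) / Real.sqrt m0

lemma cc_nonneg (m : ℕ) : 0 ≤ cc m := by unfold cc; positivity

lemma sumsq (t m Q k : ℕ) (hmQ : m * Q = MM t) (hk : k < 2 ^ m) :
    ∑ W ∈ Finset.range (2 ^ MM t), (D (2 ^ m) k Q W) ^ 2
      = (2:ℝ) ^ MM t * MM t * (cc m) ^ 2 := by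
  have hm : 1 ≤ m := by
    rcases Nat.eq_zero_or_pos m with h0 | h0
    · subst h0
      have := MM_pos t
      omega
    · exact h0
  have e : 2 ^ MM t = (2 ^ m) ^ Q := by rw [← pow_mul, hmQ]
  have h := sum_D_sq hk Q
  rw [e, h]
  unfold cc
  have hm' : (0:ℝ) < m := by exact_mod_cast hm
  have h1 : (1:ℝ) ≤ (2:ℝ) ^ m := one_le_pow₀ (by norm_num)
  rw [div_pow, mul_pow, Real.sq_sqrt (by linarith), Real.sq_sqrt hm'.le]
  have e3 : (2:ℝ) ^ MM t = ((2:ℝ) ^ m) ^ Q := by rw [← pow_mul, hmQ]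
  have e4 : (MM t : ℝ) = (m:ℝ) * Q := by exact_mod_cast hmQ.symm
  rw [e3, e4]
  push_cast
  field_simp

lemma elt_D_bound (t r m0 k0 : ℕ) (s : ℤ) (h : r < RR t) (ha : Adm t m0 k0 s) (m Q k : ℕ)
    (hmQ : m * Q = MM t) (hk : k < 2 ^ m) :
    |D (2 ^ m) k (nn t / m) (elt t r m0 k0 s)| ≤ |(s:ℝ)| * (hh t m0 * cc m) := by
  rw [elt_D t r m0 k0 s h ha m Q k hmQ hk, abs_mul, abs_mul, mul_assoc]
  apply mul_le_mul_of_nonneg_left _ (abs_nonneg _)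
  have hm0 : m0 * (MM t / m0) = MM t := Nat.mul_div_cancel' ha.1
  have hm0' : 1 ≤ m0 := by
    rcases Nat.eq_zero_or_pos m0 with h0 | h0
    · subst h0
      have := MM_pos t
      omega
    · exact h0
  have hm0r : (0:ℝ) < m0 := by exact_mod_cast hm0'
  have cs := Finset.sum_mul_sq_le_sq_mul_sq (Finset.range (2 ^ MM t))
    (fun W => D (2 ^ m0) k0 (MM t / m0) W) (fun W => D (2 ^ m) k Q W)
  rw [sumsq t m0 (MM t / m0) k0 hm0 ha.2.1, sumsq t m Q k hmQ hk] at cs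
  have hb : |∑ W ∈ Finset.range (2 ^ MM t), D (2 ^ m0) k0 (MM t / m0) W * D (2 ^ m) k Q W|
      ≤ (2:ℝ) ^ MM t * MM t * cc m0 * cc m := by
    apply abs_le_of_sq_le_sq _ (by
      have := cc_nonneg m0
      have := cc_nonneg m
      positivity)
    calc _ ≤ _ := cs
      _ = _ := by ring
  have e : |(2:ℝ) ^ m0| = (2:ℝ) ^ m0 := abs_of_pos (by positivity)
  rw [e]
  calc (2:ℝ) ^ m0 * |∑ W ∈ Finset.range (2 ^ MM t),
        D (2 ^ m0) k0 (MM t / m0) W * D (2 ^ m) k Q W|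
      ≤ (2:ℝ) ^ m0 * ((2:ℝ) ^ MM t * MM t * cc m0 * cc m) :=
        mul_le_mul_of_nonneg_left hb (by positivity)
    _ = hh t m0 * cc m := by
        unfold hh
        have : cc m0 = Real.sqrt ((2:ℝ) ^ m0 - 1) / ((2:ℝ) ^ m0 * Real.sqrt m0) := rfl
        rw [this]
        have hs : 0 < Real.sqrt m0 := Real.sqrt_pos.2 hm0r
        field_simp

lemma elt_D_dir (t r m0 k0 : ℕ) (s : ℤ) (h : r < RR t) (ha : Adm t m0 k0 s) :
    D (2 ^ m0) k0 (nn t / m0) (elt t r m0 k0 s) = (s:ℝ) * (hh t m0 * cc m0) := by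
  have hm0 : m0 * (MM t / m0) = MM t := Nat.mul_div_cancel' ha.1
  have hm0' : 1 ≤ m0 := by
    rcases Nat.eq_zero_or_pos m0 with h0 | h0
    · subst h0
      have := MM_pos t
      omega
    · exact h0
  have hm0r : (0:ℝ) < m0 := by exact_mod_cast hm0'
  rw [elt_D t r m0 k0 s h ha m0 (MM t / m0) k0 hm0 ha.2.1]
  have : ∑ W ∈ Finset.range (2 ^ MM t), D (2 ^ m0) k0 (MM t / m0) W * D (2 ^ m0) k0 (MM t / m0) W
      = (2:ℝ) ^ MM t * MM t * (cc m0) ^ 2 := by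
    rw [← sumsq t m0 (MM t / m0) k0 hm0 ha.2.1]
    apply Finset.sum_congr rfl
    intro W _
    ring
  rw [this, mul_assoc]
  congr 1
  unfold hh
  have : cc m0 = Real.sqrt ((2:ℝ) ^ m0 - 1) / ((2:ℝ) ^ m0 * Real.sqrt m0) := rfl
  rw [this]
  have hs : 0 < Real.sqrt m0 := Real.sqrt_pos.2 hm0r
  field_simp

lemma hh_ge (t m0 : ℕ) (h : m0 ∣ MM t) : 1 ≤ hh t m0 := by
  have hm0' : 1 ≤ m0 := Nat.pos_of_dvd_of_pos h (MM_pos t)
  have hm0M : m0 ≤ MM t := Nat.le_of_dvd (MM_pos t) h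
  have hm0r : (1:ℝ) ≤ m0 := by exact_mod_cast hm0'
  have hMr : (m0:ℝ) ≤ MM t := by exact_mod_cast hm0M
  unfold hh
  have hs : 0 < Real.sqrt m0 := Real.sqrt_pos.2 (by linarith)
  rw [le_div_iff₀ hs, one_mul]
  have h1 : Real.sqrt m0 ≤ m0 := by
    rw [Real.sqrt_le_left (by linarith)]
    nlinarith
  have h2 : (1:ℝ) ≤ Real.sqrt ((2:ℝ) ^ m0 - 1) := by
    rw [Real.one_le_sqrt]
    have : (2:ℝ) ^ 1 ≤ (2:ℝ) ^ m0 := pow_le_pow_right₀ (by norm_num) hm0'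
    linarith
  have h3 : (1:ℝ) ≤ (2:ℝ) ^ MM t := one_le_pow₀ (by norm_num)
  calc Real.sqrt m0 ≤ MM t := h1.trans hMr
    _ = 1 * MM t * 1 := by ring
    _ ≤ (2:ℝ) ^ MM t * MM t * Real.sqrt ((2:ℝ) ^ m0 - 1) := by
        apply mul_le_mul _ h2 (by norm_num) (by positivity)
        exact mul_le_mul_of_nonneg_right h3 (by positivity)

lemma hh_le (t m0 : ℕ) (h : m0 ∣ MM t) : hh t m0 ≤ t + 16 := by
  have hm0' : 1 ≤ m0 := Nat.pos_of_dvd_of_pos h (MM_pos t)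
  have hm0M : m0 ≤ MM t := Nat.le_of_dvd (MM_pos t) h
  have hm0r : (1:ℝ) ≤ m0 := by exact_mod_cast hm0'
  have hM1 : (1:ℝ) ≤ MM t := by exact_mod_cast MM_pos t
  unfold hh
  have hs : 1 ≤ Real.sqrt m0 := by
    rw [Real.one_le_sqrt]
    exact hm0r
  have h2 : Real.sqrt ((2:ℝ) ^ m0 - 1) ≤ (2:ℝ) ^ MM t := by
    rw [Real.sqrt_le_left (by positivity)]
    have a1 : (2:ℝ) ^ m0 ≤ (2:ℝ) ^ MM t := pow_le_pow_right₀ (by norm_num) hm0M
    have a2 : (1:ℝ) ≤ (2:ℝ) ^ MM t := one_le_pow₀ (by norm_num)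
    nlinarith
  have h3 : ((GG t ^ 2 * 4 : ℕ) : ℝ) ≤ ((t + 16 : ℕ) : ℝ) := by exact_mod_cast GG_sq_le t
  have h4 : (GG t : ℝ) = (MM t : ℝ) * 2 ^ MM t := by
    unfold GG
    push_cast
    rfl
  calc (2:ℝ) ^ MM t * MM t * Real.sqrt ((2:ℝ) ^ m0 - 1) / Real.sqrt m0
      ≤ (2:ℝ) ^ MM t * MM t * Real.sqrt ((2:ℝ) ^ m0 - 1) := div_le_self (by positivity) hs
    _ ≤ (2:ℝ) ^ MM t * MM t * (2:ℝ) ^ MM t := mul_le_mul_of_nonneg_left h2 (by positivity)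
    _ ≤ (2:ℝ) ^ MM t * MM t * (2:ℝ) ^ MM t * MM t := le_mul_of_one_le_right (by positivity) hM1
    _ = (GG t : ℝ) ^ 2 := by rw [h4]; ring
    _ ≤ t + 16 := by
        push_cast at h3
        nlinarith [sq_nonneg (GG t : ℝ)]

end Pool.Agent.W_MP_b5ad3e_nt
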