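import Mathlib

set_option autoImplicit false

namespace Pool.Agent.W_MP_b5ad3e_nt

/-- number of base-`B` digits equal to `k` among the lowest `n` digits of `x`. -/
def occ (B k n x : ℕ) : ℕ := ((Finset.range n).filter (fun j => x / B ^ j % B = k)).card

/-- discrepancy of the digit `k`. -/
noncomputable def D (B k n x : ℕ) : ℝ := (occ B k n x : ℝ) - (n : ℝ) / (B : ℝ)

lemma occ_le (B k n x : ℕ) : occ B k n x ≤ n := by
  unfold occ
  exact (Finset.card_filter_le _ _).trans (by simp)

lemma occ_add {B : ℕ} (hB : 0 < B) (k n1 n2 y z : ℕ) (hz : z < B ^ n2) :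
    occ B k (n1 + n2) (y * B ^ n2 + z) = occ B k n1 y + occ B k n2 z := by
  unfold occ
  rw [Finset.card_filter, Finset.card_filter, Finset.card_filter, add_comm n1 n2,
    Finset.sum_range_add, add_comm]
  congr 1
  · apply Finset.sum_congr rfl
    intro j hj
    have : (y * B ^ n2 + z) / B ^ (n2 + j) = y / B ^ j := by
      rw [pow_add, ← Nat.div_div_eq_div_mul, mul_comm y, Nat.mul_add_div (pow_pos hB _),
        Nat.div_eq_of_lt hz, add_zero]
    rw [this]
  · apply Finset.sum_congr rfl
    intro j hj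
    have hj' : j < n2 := by simpa using hj
    have : (y * B ^ n2 + z) / B ^ j % B = z / B ^ j % B := by
      have e : y * B ^ n2 = B ^ j * (B * (B ^ (n2 - j - 1) * y)) := by
        have : B ^ n2 = B ^ j * (B * B ^ (n2 - j - 1)) := by
          rw [← pow_succ', ← pow_add]
          congr 1
          omega
        rw [this]
        ring
      rw [e, Nat.mul_add_div (pow_pos hB _), Nat.mul_add_mod]
    rw [this]

lemma D_add {B : ℕ} (hB : 0 < B) (k n1 n2 y z : ℕ) (hz : z < B ^ n2) :
    D B k (n1 + n2) (y * B ^ n2 + z) = D B k n1 y + D B k n2 z := by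
  unfold D
  rw [occ_add hB k n1 n2 y z hz]
  push_cast
  ring

lemma D_zero (B k x : ℕ) : D B k 0 x = 0 := by
  simp [D, occ]

lemma abs_D_le {B : ℕ} (hB : 0 < B) (k n x : ℕ) : |D B k n x| ≤ n := by
  unfold D
  have h1 : (occ B k n x : ℝ) ≤ n := by exact_mod_cast occ_le B k n x
  have h0 : (0:ℝ) ≤ (occ B k n x : ℝ) := by positivity
  have hB' : (1:ℝ) ≤ B := by exact_mod_cast hB
  have h2 : (n:ℝ) / B ≤ n := div_le_self (by positivity) hB'
  have h3 : 0 ≤ (n:ℝ) / B := by positivity
  rw [abs_le]
  constructor <;> linarith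

lemma D_one {B k w : ℕ} (hw : w < B) :
    D B k 1 w = (if w = k then 1 else 0) - 1 / (B:ℝ) := by
  unfold D occ
  simp only [Finset.range_one, Nat.cast_one]
  congr 1
  by_cases h : w = k
  · subst h
    simp [Finset.filter_singleton, Nat.mod_eq_of_lt hw]
  · simp [Finset.filter_singleton, Nat.mod_eq_of_lt hw, h]

lemma sum_range_mul_eq (f : ℕ → ℝ) (A B : ℕ) :
    ∑ W ∈ Finset.range (A * B), f W
      = ∑ W ∈ Finset.range A, ∑ w ∈ Finset.range B, f (W * B + w) := by
  induction A with
  | zero => simp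
  | succ A ih =>
    rw [Finset.sum_range_succ, ← ih, Nat.succ_mul, Finset.sum_range_add]

lemma sum_D_one {B k : ℕ} (hk : k < B) :
    ∑ w ∈ Finset.range B, D B k 1 w = 0 := by
  have hB : (B:ℝ) ≠ 0 := by
    have : 0 < B := by omega
    positivity
  rw [Finset.sum_congr rfl (fun w hw => D_one (k := k) (Finset.mem_range.1 hw))]
  rw [Finset.sum_sub_distrib, Finset.sum_ite_eq' (Finset.range B) k]
  simp [hk, hB]

lemma sum_D_one_sq {B k : ℕ} (hk : k < B) :
    ∑ w ∈ Finset.range B, (D B k 1 w) ^ 2 = ((B:ℝ) - 1) / B := by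
  have hB : (B:ℝ) ≠ 0 := by
    have : 0 < B := by omega
    positivity
  have : ∀ w ∈ Finset.range B, (D B k 1 w) ^ 2
      = (if w = k then (1 - 2 / (B:ℝ)) else 0) + 1 / (B:ℝ) ^ 2 := by
    intro w hw
    rw [D_one (Finset.mem_range.1 hw)]
    split_ifs <;> field_simp <;> ring
  rw [Finset.sum_congr rfl this, Finset.sum_add_distrib,
    Finset.sum_ite_eq' (Finset.range B) k]
  simp only [Finset.mem_range, hk, if_true, Finset.sum_const, Finset.card_range, nsmul_eq_mul]
  field_simp
  ring

lemma sum_D {B k : ℕ} (hk : k < B) (Q : ℕ) :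
    ∑ W ∈ Finset.range (B ^ Q), D B k Q W = 0 := by
  induction Q with
  | zero => simp [D_zero]
  | succ Q ih =>
    rw [pow_succ, sum_range_mul_eq]
    have : ∀ W ∈ Finset.range (B ^ Q), ∑ w ∈ Finset.range B, D B k (Q + 1) (W * B + w)
        = B * D B k Q W := by
      intro W _
      have : ∀ w ∈ Finset.range B, D B k (Q + 1) (W * B + w) = D B k Q W + D B k 1 w := by
        intro w hw
        have := D_add (B := B) (by omega) k Q 1 W w (by simpa using hw)
        simpa using this
      rw [Finset.sum_congr rfl this, Finset.sum_add_distrib, sum_D_one hk]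
      simp
    rw [Finset.sum_congr rfl this, ← Finset.mul_sum, ih, mul_zero]

lemma sum_D_sq {B k : ℕ} (hk : k < B) (Q : ℕ) :
    ∑ W ∈ Finset.range (B ^ Q), (D B k Q W) ^ 2
      = (Q:ℝ) * (B:ℝ) ^ Q * ((B:ℝ) - 1) / (B:ℝ) ^ 2 := by
  have hB : (B:ℝ) ≠ 0 := by
    have : 0 < B := by omega
    positivity
  induction Q with
  | zero => simp [D_zero]
  | succ Q ih =>
    rw [pow_succ, sum_range_mul_eq]
    have : ∀ W ∈ Finset.range (B ^ Q), ∑ w ∈ Finset.range B, (D B k (Q + 1) (W * B + w)) ^ 2
        = B * (D B k Q W) ^ 2 + ((B:ℝ) - 1) / B := by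
      intro W _
      have : ∀ w ∈ Finset.range B, (D B k (Q + 1) (W * B + w)) ^ 2
          = (D B k Q W) ^ 2 + 2 * D B k Q W * D B k 1 w + (D B k 1 w) ^ 2 := by
        intro w hw
        have := D_add (B := B) (by omega) k Q 1 W w (by simpa using hw)
        rw [pow_one] at this
        rw [this]
        ring
      rw [Finset.sum_congr rfl this, Finset.sum_add_distrib, Finset.sum_add_distrib,
        ← Finset.mul_sum, sum_D_one hk, sum_D_one_sq hk]
      simp
    rw [Finset.sum_congr rfl this, Finset.sum_add_distrib, ← Finset.mul_sum, ih]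
    simp only [Finset.sum_const, Finset.card_range, nsmul_eq_mul]
    push_cast
    field_simp
    ring

/-- the discrepancy of a number written as a list of `M`-words. -/
lemma D_ofDigits {B Q K : ℕ} (hB : 0 < B) (hK : K = B ^ Q) (k : ℕ) (L : List ℕ)
    (hL : ∀ W ∈ L, W < K) :
    D B k (Q * L.length) (Nat.ofDigits K L) = (L.map (D B k Q)).sum := by
  induction L with
  | nil => simp [D_zero]
  | cons W L ih =>
    have h1 := ih (fun W' hW' => hL W' (List.mem_cons_of_mem _ hW'))
    have hW : W < K := hL W (by simp)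
    rw [Nat.ofDigits_cons, List.map_cons, List.sum_cons, ← h1, List.length_cons]
    have e : (W : ℕ) + K * Nat.ofDigits K L = Nat.ofDigits K L * B ^ Q + W := by
      rw [hK]
      ring
    have e2 : Q * (L.length + 1) = Q * L.length + Q := by ring
    rw [e2]
    have := D_add hB k (Q * L.length) Q (Nat.ofDigits K L) W (by rw [← hK]; exact hW)
    rw [← e] at this
    rw [this]
    ring

end Pool.Agent.W_MP_b5ad3e_nt
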