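import Mathlib

set_option autoImplicit false

namespace Pool.Agent.W_MP_b5ad3e_nt

open Filter

/-- the law of the iterated logarithm normalisation -/
noncomputable def Phi (x : ℝ) : ℝ := Real.sqrt (2 * x * Real.log (Real.log x))

lemma Phi_nonneg (x : ℝ) : 0 ≤ Phi x := Real.sqrt_nonneg _

lemma Phi_zero : Phi 0 = 0 := by simp [Phi]

lemma exp_one_lt_three : Real.exp 1 < 3 := by
  have := Real.exp_one_lt_d9
  linarith

lemma log_ge_one {x : ℝ} (hx : 3 ≤ x) : 1 ≤ Real.log x := by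
  rw [Real.le_log_iff_exp_le (by linarith)]
  linarith [exp_one_lt_three]

lemma LL_nonneg {x : ℝ} (hx : 3 ≤ x) : 0 ≤ Real.log (Real.log x) :=
  Real.log_nonneg (log_ge_one hx)

lemma LL_mono {x y : ℝ} (hx : 3 ≤ x) (hxy : x ≤ y) :
    Real.log (Real.log x) ≤ Real.log (Real.log y) := by
  apply Real.log_le_log
  · linarith [log_ge_one hx]
  · exact Real.log_le_log (by linarith) hxy

lemma Phi_mono {x y : ℝ} (hx : 1 ≤ x) (hxy : x ≤ y) : Phi x ≤ Phi y := by
  by_cases h : Real.exp 1 ≤ x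
  · have h1 : 1 ≤ Real.log x := by
      rw [Real.le_log_iff_exp_le (by linarith)]
      exact h
    have h2 : Real.log x ≤ Real.log y := Real.log_le_log (by linarith) hxy
    have h3 : 0 ≤ Real.log (Real.log x) := Real.log_nonneg h1
    have h4 : Real.log (Real.log x) ≤ Real.log (Real.log y) := Real.log_le_log (by linarith) h2
    unfold Phi
    apply Real.sqrt_le_sqrt
    apply mul_le_mul _ h4 h3 (by linarith)
    linarith
  · push Not at h
    have h1 : Real.log x ≤ 1 := by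
      rw [Real.log_le_iff_le_exp (by linarith)]
      exact h.le
    have h0 : 0 ≤ Real.log x := Real.log_nonneg hx
    have h2 : Real.log (Real.log x) ≤ 0 := Real.log_nonpos h0 h1
    have : Phi x = 0 := by
      unfold Phi
      apply Real.sqrt_eq_zero_of_nonpos
      nlinarith
    rw [this]
    exact Phi_nonneg y

lemma Phi_mono_nat {P P' : ℕ} (h : P ≤ P') : Phi P ≤ Phi P' := by
  rcases Nat.eq_zero_or_pos P with h0 | h0
  · subst h0
    simp only [Nat.cast_zero, Phi_zero]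
    exact Phi_nonneg _
  · apply Phi_mono
    · exact_mod_cast h0
    · exact_mod_cast h

lemma Phi_sq {x : ℝ} (hx : 3 ≤ x) : Phi x ^ 2 = 2 * x * Real.log (Real.log x) := by
  unfold Phi
  rw [Real.sq_sqrt]
  have := LL_nonneg hx
  positivity

lemma LL16 {x : ℝ} (hx : 16 ≤ x) : 1 ≤ Real.log (Real.log x) := by
  have h1 : Real.log 16 ≤ Real.log x := Real.log_le_log (by norm_num) hx
  have h2 : (2.7725887 : ℝ) ≤ Real.log 16 := by
    have : (16:ℝ) = 2 ^ (4:ℕ) := by norm_num
    rw [this, Real.log_pow]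
    have := Real.log_two_gt_d9
    push_cast
    linarith
  rw [Real.le_log_iff_exp_le (by linarith)]
  have := Real.exp_one_lt_d9
  linarith

lemma Phi_ge_sqrt {x : ℝ} (hx : 16 ≤ x) : Real.sqrt x ≤ Phi x := by
  unfold Phi
  apply Real.sqrt_le_sqrt
  have := LL16 hx
  nlinarith

lemma Phi_incr : ∃ P0 : ℝ, 16 ≤ P0 ∧ ∀ P : ℝ, P0 ≤ P → ∀ n : ℝ, 0 ≤ n → n ≤ P ^ ((1:ℝ)/4) →
    Phi (P + n) ≤ Phi P + 1 := by
  -- `LL P ≤ P^(1/4)/ 4` eventually
  have hA : ∀ᶠ P : ℝ in atTop, Real.log P ≤ (1/4) * P ^ ((1:ℝ)/4) := by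
    have := (isLittleO_log_rpow_atTop (r := (1:ℝ)/4) (by norm_num)).bound
      (by norm_num : (0:ℝ) < 1/4)
    filter_upwards [this, eventually_ge_atTop (1:ℝ)] with P hP h1
    rw [Real.norm_eq_abs, Real.norm_eq_abs, abs_of_nonneg (Real.log_nonneg h1),
      abs_of_nonneg (by positivity)] at hP
    exact hP
  rw [eventually_atTop] at hA
  obtain ⟨a, ha⟩ := hA
  refine ⟨max a 256, (by norm_num : (16:ℝ) ≤ 256).trans (le_max_right _ _), ?_⟩
  intro P hP n hn0 hn
  have hPa : a ≤ P := (le_max_left _ _).trans hP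
  have hP256 : 256 ≤ P := (le_max_right _ _).trans hP
  have hP3 : (3:ℝ) ≤ P := by linarith
  have hlog := ha P hPa
  have hl1 := log_ge_one hP3
  have hLL0 := LL_nonneg hP3
  have hLL1 := LL16 (by linarith : (16:ℝ) ≤ P)
  have hLLlog : Real.log (Real.log P) ≤ Real.log P := by
    have := Real.log_le_sub_one_of_pos (by linarith : 0 < Real.log P)
    linarith
  set r : ℝ := P ^ ((1:ℝ)/4) with hr
  have hr4 : r ^ 4 = P := by
    rw [hr, ← Real.rpow_natCast, ← Real.rpow_mul (by linarith)]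
    norm_num
  have hrpos : 0 < r := by positivity
  have hr256 : 4 ≤ r := by
    by_contra hcon
    push Not at hcon
    have : r ^ 4 < 4 ^ 4 := pow_lt_pow_left₀ hcon hrpos.le (by norm_num)
    rw [hr4] at this
    norm_num at this
    linarith
  have hnP : n ≤ P := by
    have : r ≤ r ^ 4 := le_self_pow₀ (by linarith) (by norm_num)
    linarith
  have hPhiP : r ^ 2 ≤ Phi P := by
    have h1 := Phi_ge_sqrt (by linarith : (16:ℝ) ≤ P)
    have h2 : Real.sqrt P = r ^ 2 := by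
      rw [← hr4, show r ^ 4 = (r ^ 2) ^ 2 by ring, Real.sqrt_sq (by positivity)]
    rwa [h2] at h1
  -- log(P+n) ≤ log P + n/P
  have h1 : Real.log (P + n) ≤ Real.log P + n / P := by
    have e : P + n = P * (1 + n / P) := by field_simp
    have hpos : 0 < 1 + n / P := by positivity
    rw [e, Real.log_mul (by linarith) hpos.ne']
    have := Real.log_le_sub_one_of_pos hpos
    linarith
  have h2 : Real.log (Real.log (P + n)) ≤ Real.log (Real.log P) + n / P := by
    have hlogpos : 0 < Real.log P := by linarith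
    have e : Real.log P + n / P = Real.log P * (1 + n / P / Real.log P) := by field_simp
    have hpos : 0 < 1 + n / P / Real.log P := by positivity
    have hlp : 0 < Real.log (P + n) := by
      have := log_ge_one (by linarith : 3 ≤ P + n)
      linarith
    calc Real.log (Real.log (P + n)) ≤ Real.log (Real.log P + n / P) := Real.log_le_log hlp h1
      _ = Real.log (Real.log P) + Real.log (1 + n / P / Real.log P) := by
          rw [e, Real.log_mul hlogpos.ne' hpos.ne']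
      _ ≤ Real.log (Real.log P) + n / P / Real.log P := by
          have := Real.log_le_sub_one_of_pos hpos
          linarith
      _ ≤ Real.log (Real.log P) + n / P := by
          have : n / P / Real.log P ≤ n / P := div_le_self (by positivity) hl1
          linarith
  have hsq1 := Phi_sq (by linarith : 3 ≤ P + n)
  have hsq2 := Phi_sq hP3
  have hkey : Phi (P + n) ^ 2 ≤ (Phi P + 1) ^ 2 := by
    have : (Phi P + 1) ^ 2 = Phi P ^ 2 + 2 * Phi P + 1 := by ring
    rw [this, hsq1, hsq2]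
    have a1 : 2 * (P + n) * Real.log (Real.log (P + n))
        ≤ 2 * (P + n) * (Real.log (Real.log P) + n / P) :=
      mul_le_mul_of_nonneg_left h2 (by linarith)
    have a2 : 2 * (P + n) * (Real.log (Real.log P) + n / P)
        = 2 * P * Real.log (Real.log P) + 2 * n * Real.log (Real.log P) + 2 * n + 2 * n * (n / P) := by
      field_simp
      ring
    have a3 : n / P ≤ 1 := by
      rw [div_le_one (by linarith)]
      exact hnP
    have a4 : 2 * n * (n / P) ≤ 2 * n := by nlinarith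
    have a5 : n * Real.log (Real.log P) ≤ r * ((1/4) * r) := by
      apply mul_le_mul hn (hLLlog.trans hlog) hLL0 hrpos.le
    have a6 : 4 * n ≤ r ^ 2 := by nlinarith
    nlinarith
  exact abs_le_of_sq_le_sq' hkey (by linarith [Phi_nonneg P]) |>.2

lemma Phi_mul_upper (m : ℕ) (hm : 1 ≤ m) (ε : ℝ) (hε : 0 < ε) :
    ∀ᶠ n : ℕ in atTop, Phi ((n:ℝ) * m) ≤ (1 + ε) * (Real.sqrt m * Phi n) := by
  have hLL : Tendsto (fun n : ℕ => Real.log (Real.log (n:ℝ))) atTop atTop :=
    Real.tendsto_log_atTop.comp (Real.tendsto_log_atTop.comp tendsto_natCast_atTop_atTop)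
  filter_upwards [hLL.eventually_ge_atTop (Real.log 2 / ε), eventually_ge_atTop (max m 3)]
    with n h1 hn
  have hn3 : (3:ℝ) ≤ n := by exact_mod_cast (le_max_right _ _).trans hn
  have hnm : (m:ℝ) ≤ n := by exact_mod_cast (le_max_left _ _).trans hn
  have hm1 : (1:ℝ) ≤ m := by exact_mod_cast hm
  have hnm3 : (3:ℝ) ≤ n * m := by nlinarith
  have hlog : Real.log ((n:ℝ) * m) ≤ 2 * Real.log n := by
    rw [Real.log_mul (by linarith) (by linarith)]
    have := Real.log_le_log (by linarith) hnm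
    linarith
  have hl1 := log_ge_one hn3
  have hl2 := log_ge_one hnm3
  have hLL2 : Real.log (Real.log ((n:ℝ) * m)) ≤ Real.log 2 + Real.log (Real.log n) := by
    rw [← Real.log_mul (by norm_num) (by linarith)]
    exact Real.log_le_log (by linarith) hlog
  have hLLn := LL_nonneg hn3
  have h2 : Real.log 2 ≤ ε * Real.log (Real.log n) := by
    rw [div_le_iff₀ hε] at h1
    linarith
  have hkey : Phi ((n:ℝ) * m) ^ 2 ≤ ((1 + ε) * (Real.sqrt m * Phi n)) ^ 2 := by
    rw [Phi_sq hnm3]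
    have e : ((1 + ε) * (Real.sqrt m * Phi n)) ^ 2
        = (1 + ε) ^ 2 * (m * (2 * n * Real.log (Real.log n))) := by
      rw [mul_pow, mul_pow, Real.sq_sqrt (by linarith), Phi_sq hn3]
    rw [e]
    have h3 : Real.log (Real.log ((n:ℝ) * m)) ≤ (1 + ε) ^ 2 * Real.log (Real.log n) := by
      nlinarith [mul_nonneg hε.le hLLn, mul_nonneg (sq_nonneg ε) hLLn]
    calc 2 * ((n:ℝ) * m) * Real.log (Real.log ((n:ℝ) * m))
        ≤ 2 * ((n:ℝ) * m) * ((1 + ε) ^ 2 * Real.log (Real.log n)) :=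
          mul_le_mul_of_nonneg_left h3 (by positivity)
      _ = _ := by ring
  have hnn : 0 ≤ (1 + ε) * (Real.sqrt m * Phi n) := by
    have := Phi_nonneg n
    positivity
  exact abs_le_of_sq_le_sq' hkey hnn |>.2

lemma Phi_mul_lower (m : ℕ) (hm : 1 ≤ m) (n : ℕ) (hn : 3 ≤ n) :
    Real.sqrt m * Phi n ≤ Phi ((n:ℝ) * m) := by
  have hn3 : (3:ℝ) ≤ n := by exact_mod_cast hn
  have hm1 : (1:ℝ) ≤ m := by exact_mod_cast hm
  have hnm3 : (3:ℝ) ≤ n * m := by nlinarith
  have hkey : (Real.sqrt m * Phi n) ^ 2 ≤ Phi ((n:ℝ) * m) ^ 2 := by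
    rw [Phi_sq hnm3, mul_pow, Real.sq_sqrt (by linarith), Phi_sq hn3]
    have := LL_mono hn3 (by nlinarith : (n:ℝ) ≤ n * m)
    calc (m:ℝ) * (2 * n * Real.log (Real.log n)) = 2 * (n * m) * Real.log (Real.log n) := by ring
      _ ≤ _ := mul_le_mul_of_nonneg_left this (by positivity)
  exact abs_le_of_sq_le_sq' hkey (Phi_nonneg _) |>.2

/-- bound for the number of stages -/
noncomputable def tau (x : ℝ) : ℝ := Real.logb 2 (2 * x + 1) + 18

lemma tau_mono {x y : ℝ} (hx : 0 ≤ x) (hxy : x ≤ y) : tau x ≤ tau y := by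
  unfold tau
  have : Real.logb 2 (2 * x + 1) ≤ Real.logb 2 (2 * y + 1) := by
    apply Real.logb_le_logb_of_le (by norm_num) (by linarith) (by linarith)
  linarith

lemma tau_ge {x : ℝ} (hx : 0 ≤ x) : 18 ≤ tau x := by
  unfold tau
  have : 0 ≤ Real.logb 2 (2 * x + 1) := Real.logb_nonneg (by norm_num) (by linarith)
  linarith

lemma tau_small (C : ℝ) : ∀ᶠ x : ℝ in atTop, C * (1 + tau x ^ 3) ≤ x ^ ((1:ℝ)/4) := by
  -- `tau x ≤ 2 x^(1/16)` eventually up to constants; use little-o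
  have h1 : ∀ᶠ x : ℝ in atTop, tau x ≤ x ^ ((1:ℝ)/16) := by
    have hl := (isLittleO_log_rpow_atTop (r := (1:ℝ)/16) (by norm_num)).bound
      (by positivity : (0:ℝ) < Real.log 2 / 4)
    have h2 : Tendsto (fun x : ℝ => x ^ ((1:ℝ)/16)) atTop atTop :=
      tendsto_rpow_atTop (by norm_num)
    filter_upwards [hl, h2.eventually_ge_atTop (2 * (Real.logb 2 3 + 18)), eventually_ge_atTop (1:ℝ)]
      with x hx hx2 hx1
    rw [Real.norm_eq_abs, Real.norm_eq_abs, abs_of_nonneg (Real.log_nonneg hx1),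
      abs_of_nonneg (by positivity)] at hx
    unfold tau
    have hlog2 : 0 < Real.log 2 := Real.log_pos (by norm_num)
    have e1 : Real.logb 2 (2 * x + 1) ≤ Real.logb 2 (3 * x) := by
      apply Real.logb_le_logb_of_le (by norm_num) (by linarith) (by linarith)
    have e2 : Real.logb 2 (3 * x) = Real.logb 2 3 + Real.logb 2 x :=
      Real.logb_mul (by norm_num) (by linarith)
    have e3 : Real.logb 2 x ≤ x ^ ((1:ℝ)/16) / 4 := by
      rw [Real.logb, div_le_iff₀ hlog2]
      linarith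
    have h3 : 0 ≤ x ^ ((1:ℝ)/16) := by positivity
    linarith
  have h2 : Tendsto (fun x : ℝ => x ^ ((1:ℝ)/16)) atTop atTop :=
    tendsto_rpow_atTop (by norm_num)
  filter_upwards [h1, h2.eventually_ge_atTop (max 1 (2 * |C|)), eventually_ge_atTop (1:ℝ)]
    with x hx hx2 hx1
  set y : ℝ := x ^ ((1:ℝ)/16) with hy
  have hy1 : 1 ≤ y := (le_max_left _ _).trans hx2
  have hyC : 2 * |C| ≤ y := (le_max_right _ _).trans hx2
  have hx4 : x ^ ((1:ℝ)/4) = y ^ 4 := by
    rw [hy, ← Real.rpow_natCast, ← Real.rpow_mul (by linarith)]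
    norm_num
  have ht : 18 ≤ tau x := tau_ge (by linarith)
  rw [hx4]
  have h3 : tau x ^ 3 ≤ y ^ 3 := pow_le_pow_left₀ (by linarith) hx 3
  have h4 : (1:ℝ) ≤ y ^ 3 := one_le_pow₀ hy1
  have h5 : 0 ≤ tau x ^ 3 := by positivity
  calc C * (1 + tau x ^ 3) ≤ |C| * (1 + tau x ^ 3) :=
        mul_le_mul_of_nonneg_right (le_abs_self _) (by linarith)
    _ ≤ |C| * (2 * y ^ 3) := mul_le_mul_of_nonneg_left (by linarith) (abs_nonneg _)
    _ = (2 * |C|) * y ^ 3 := by ring
    _ ≤ y * y ^ 3 := mul_le_mul_of_nonneg_right hyC (by positivity)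
    _ = y ^ 4 := by ring

lemma tau_small' (m : ℕ) (hm : 1 ≤ m) (C ε : ℝ) (hε : 0 < ε) :
    ∀ᶠ n : ℕ in atTop, C * (1 + tau ((n:ℝ) * m) ^ 3) ≤ ε * Phi n := by
  have hm1 : (1:ℝ) ≤ m := by exact_mod_cast hm
  have h1 : Tendsto (fun n : ℕ => (n:ℝ) * m) atTop atTop :=
    tendsto_natCast_atTop_atTop.atTop_mul_const (by linarith)
  have h2 := h1.eventually (tau_small (C * m / ε))
  filter_upwards [h2, eventually_ge_atTop 16] with n hn hn16
  have hn' : (16:ℝ) ≤ n := by exact_mod_cast hn16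
  have h3 := Phi_ge_sqrt hn'
  have h4 : ((n:ℝ) * m) ^ ((1:ℝ)/4) ≤ m * Real.sqrt n := by
    rw [Real.mul_rpow (by linarith) (by linarith), Real.sqrt_eq_rpow]
    have a : (n:ℝ) ^ ((1:ℝ)/4) ≤ (n:ℝ) ^ ((1:ℝ)/2) :=
      Real.rpow_le_rpow_of_exponent_le (by linarith) (by norm_num)
    have b : (m:ℝ) ^ ((1:ℝ)/4) ≤ (m:ℝ) ^ (1:ℝ) :=
      Real.rpow_le_rpow_of_exponent_le hm1 (by norm_num)
    rw [Real.rpow_one] at b
    calc (n:ℝ) ^ ((1:ℝ)/4) * (m:ℝ) ^ ((1:ℝ)/4) ≤ (n:ℝ) ^ ((1:ℝ)/2) * m :=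
          mul_le_mul a b (by positivity) (by positivity)
      _ = _ := by ring
  have h5 : C * m / ε * (1 + tau ((n:ℝ) * m) ^ 3) ≤ m * Phi n :=
    hn.trans (h4.trans (mul_le_mul_of_nonneg_left h3 (by linarith)))
  have e : C * m / ε * (1 + tau ((n:ℝ) * m) ^ 3) = m * (C * (1 + tau ((n:ℝ) * m) ^ 3)) / ε := by
    ring
  rw [e, div_le_iff₀ hε] at h5
  have h6 : (m:ℝ) * (C * (1 + tau ((n:ℝ) * m) ^ 3)) ≤ m * (ε * Phi n) := by linarith
  exact le_of_mul_le_mul_left h6 (by linarith)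

/-- the value at the start of a run is negligible compared to the value at its end -/
lemma Phi_run {X Ps Pe : ℝ} (hX : 16 ≤ X) (h0 : 3 ≤ Ps) (h1 : Ps ≤ 2 * X) (h2 : X ^ 2 ≤ Pe) :
    Phi Ps ≤ Real.sqrt (2 / X) * Phi Pe := by
  have hle : Ps ≤ Pe := by nlinarith
  have hLs := LL_nonneg h0
  have hLL := LL_mono h0 hle
  have hkey : Phi Ps ^ 2 ≤ (Real.sqrt (2 / X) * Phi Pe) ^ 2 := by
    rw [mul_pow, Real.sq_sqrt (by positivity), Phi_sq h0, Phi_sq (by linarith)]
    calc 2 * Ps * Real.log (Real.log Ps) ≤ 2 * (2 * X) * Real.log (Real.log Pe) := by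
          apply mul_le_mul (by linarith) hLL hLs (by linarith)
      _ = 2 / X * (2 * X ^ 2 * Real.log (Real.log Pe)) := by field_simp
      _ ≤ 2 / X * (2 * Pe * Real.log (Real.log Pe)) := by
          apply mul_le_mul_of_nonneg_left _ (by positivity)
          apply mul_le_mul_of_nonneg_right _ (hLs.trans hLL)
          linarith
  exact abs_le_of_sq_le_sq' hkey (mul_nonneg (Real.sqrt_nonneg _) (Phi_nonneg _)) |>.2

end Pool.Agent.W_MP_b5ad3e_nt
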