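import Pool.Agent.W_MP_b5ad3e_nt.State

set_option autoImplicit false

namespace Pool.Agent.W_MP_b5ad3e_nt

open Filter

/-- index of the element containing position `p` -/
noncomputable def ix (p : ℕ) : ℕ := Nat.findGreatest (fun i => PP i ≤ p) p

lemma ix_eq (i r : ℕ) (hr : r < ln i) : ix (PP i + r) = i := by
  unfold ix
  apply le_antisymm
  · by_contra hcon
    push Not at hcon
    have h1 : PP (Nat.findGreatest (fun i' => PP i' ≤ PP i + r) (PP i + r)) ≤ PP i + r :=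
      Nat.findGreatest_spec (P := fun i' => PP i' ≤ PP i + r) (m := 0) (Nat.zero_le _)
        (by simp [PP_zero])
    have h2 : PP (i + 1) ≤ PP (Nat.findGreatest (fun i' => PP i' ≤ PP i + r) (PP i + r)) :=
      PP_strictMono.monotone hcon
    rw [PP_succ] at h2
    omega
  · apply Nat.le_findGreatest
    · exact (le_PP i).trans (Nat.le_add_right _ _)
    · exact Nat.le_add_right _ _

/-- the digits of the concatenated number -/
noncomputable def dd (p : ℕ) : ℕ := aa (ix p) / 2 ^ (PP (ix p) + ln (ix p) - 1 - p) % 2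

lemma dd_eq (i r : ℕ) (hr : r < ln i) : dd (PP i + r) = aa i / 2 ^ (ln i - 1 - r) % 2 := by
  unfold dd
  rw [ix_eq i r hr]
  congr 3
  omega

lemma dd_le (p : ℕ) : dd p ≤ 1 := by
  unfold dd
  omega

/-- integer value of the first `p` digits -/
noncomputable def V : ℕ → ℕ
  | 0 => 0
  | p + 1 => 2 * V p + dd p

lemma V_succ (p : ℕ) : V (p + 1) = 2 * V p + dd p := rfl

lemma V_block (i r : ℕ) (hr : r ≤ ln i) :
    V (PP i + r) = V (PP i) * 2 ^ r + aa i / 2 ^ (ln i - r) := by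
  induction r with
  | zero =>
    simp [Nat.div_eq_of_lt (aa_lt i)]
  | succ r ih =>
    have h1 := ih (by omega)
    rw [← add_assoc, V_succ, h1, dd_eq i r (by omega)]
    have e1 : ln i - r = (ln i - 1 - r) + 1 := by omega
    have e2 : ln i - (r + 1) = ln i - 1 - r := by omega
    rw [e1, e2, pow_succ, pow_succ, ← Nat.div_div_eq_div_mul]
    have := Nat.div_add_mod (aa i / 2 ^ (ln i - 1 - r)) 2
    linarith

/-- number of base-`2^m` digits equal to `k` among the first `n` ones -/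
noncomputable def cnt (m k n : ℕ) : ℕ :=
  ((Finset.range n).filter (fun i => V (m * (i + 1)) % 2 ^ m = k)).card

lemma cnt_step (m k i : ℕ) (hm1 : 1 ≤ m) (hm : m ∣ MM (tt i)) :
    cnt m k (PP (i + 1) / m) = cnt m k (PP i / m) + occ (2 ^ m) k (ln i / m) (aa i) := by
  have hP := PP_dvd i hm
  have hL := ln_dvd i hm
  obtain ⟨n0, hn0⟩ := hP
  obtain ⟨n1, hn1⟩ := hL
  rw [PP_succ, hn0, hn1, ← mul_add, Nat.mul_div_cancel_left _ (by omega),
    Nat.mul_div_cancel_left _ (by omega), Nat.mul_div_cancel_left _ (by omega)]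
  unfold cnt occ
  rw [Finset.card_filter, Finset.card_filter, Finset.card_filter, Finset.sum_range_add]
  congr 1
  rw [← Finset.sum_range_reflect]
  apply Finset.sum_congr rfl
  intro j hj
  have hj' : j < n1 := by simpa using hj
  have e1 : m * (n0 + (n1 - 1 - j) + 1) = PP i + m * (n1 - j) := by
    rw [hn0, ← mul_add]
    congr 1
    omega
  have e2 : m * (n1 - j) ≤ ln i := by
    rw [hn1]
    exact Nat.mul_le_mul_left _ (by omega)
  have e3 : ln i - m * (n1 - j) = m * j := by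
    rw [hn1, ← Nat.mul_sub]
    congr 1
    omega
  rw [e1, V_block i _ e2, e3]
  have e4 : (V (PP i) * 2 ^ (m * (n1 - j)) + aa i / 2 ^ (m * j)) % 2 ^ m
      = aa i / (2 ^ m) ^ j % 2 ^ m := by
    have : 2 ^ (m * (n1 - j)) = 2 ^ m * 2 ^ (m * (n1 - j - 1)) := by
      rw [← pow_add]
      congr 1
      have : n1 - j = (n1 - j - 1) + 1 := by omega
      conv_lhs => rw [this]
      ring
    rw [this, ← pow_mul]
    have e5 : V (PP i) * (2 ^ m * 2 ^ (m * (n1 - j - 1)))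
        = 2 ^ m * (V (PP i) * 2 ^ (m * (n1 - j - 1))) := by ring
    rw [e5, Nat.mul_add_mod]
  rw [e4]

lemma cnt_mono_diff (m k n n' : ℕ) (h : n ≤ n') :
    cnt m k n ≤ cnt m k n' ∧ cnt m k n' ≤ cnt m k n + (n' - n) := by
  obtain ⟨c, rfl⟩ := Nat.exists_eq_add_of_le h
  unfold cnt
  rw [Finset.card_filter, Finset.card_filter, Finset.sum_range_add]
  refine ⟨Nat.le_add_right _ _, ?_⟩
  have : ∑ x ∈ Finset.range c, (if V (m * (n + x + 1)) % 2 ^ m = k then 1 else 0)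
      ≤ ∑ x ∈ Finset.range c, 1 := by
    apply Finset.sum_le_sum
    intro x _
    split_ifs <;> simp
  simp only [Finset.sum_const, Finset.card_range, smul_eq_mul, mul_one] at this
  omega

/-- discrepancy of the concatenated number -/
noncomputable def Dl (m k n : ℕ) : ℝ := (cnt m k n : ℝ) - (n : ℝ) / (2:ℝ) ^ m

lemma Dl_step (m k i : ℕ) (hm1 : 1 ≤ m) (hm : m ∣ MM (tt i)) :
    Dl m k (PP (i + 1) / m) = Dl m k (PP i / m) + D (2 ^ m) k (ln i / m) (aa i) := by
  unfold Dl D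
  rw [cnt_step m k i hm1 hm]
  have : PP (i + 1) / m = PP i / m + ln i / m := by
    rw [PP_succ]
    exact Nat.add_div_of_dvd_left (ln_dvd i hm)
  rw [this]
  push_cast
  ring

lemma Dl_between (m k n n' : ℕ) (h : n ≤ n') :
    |Dl m k n' - Dl m k n| ≤ (n' - n : ℕ) := by
  obtain ⟨h1, h2⟩ := cnt_mono_diff m k n n' h
  have h1' : (cnt m k n : ℝ) ≤ cnt m k n' := by exact_mod_cast h1
  have h2' : (cnt m k n' : ℝ) ≤ cnt m k n + ((n' - n : ℕ) : ℝ) := by exact_mod_cast h2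
  have h3 : ((n' - n : ℕ) : ℝ) = (n':ℝ) - n := by
    push_cast [h]
    ring
  have hp : (1:ℝ) ≤ (2:ℝ) ^ m := one_le_pow₀ (by norm_num)
  have h4 : ((n':ℝ) - n) / (2:ℝ) ^ m ≤ (n':ℝ) - n := by
    apply div_le_self _ hp
    have : (n:ℝ) ≤ n' := by exact_mod_cast h
    linarith
  have h5 : 0 ≤ ((n':ℝ) - n) / (2:ℝ) ^ m := by
    have : (n:ℝ) ≤ n' := by exact_mod_cast h
    apply div_nonneg <;> linarith
  have e : Dl m k n' - Dl m k n = (cnt m k n' - cnt m k n : ℝ) - ((n':ℝ) - n) / (2:ℝ) ^ m := by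
    unfold Dl
    ring
  rw [e, h3, abs_le]
  constructor <;> linarith

/-! the real number -/

noncomputable def xi : ℝ := ∑' i : ℕ, (dd i : ℝ) / (2:ℝ) ^ (i + 1)

lemma summable_geo : Summable (fun i : ℕ => (1:ℝ) / (2:ℝ) ^ (i + 1)) := by
  have := summable_geometric_two' (1:ℝ)
  refine this.congr ?_
  intro i
  rw [pow_succ]
  field_simp

lemma tsum_geo : ∑' i : ℕ, (1:ℝ) / (2:ℝ) ^ (i + 1) = 1 := by
  refine Eq.trans ?_ (tsum_geometric_two' (1:ℝ))
  apply tsum_congr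
  intro i
  rw [pow_succ, div_div, mul_comm]

lemma dd_term_nonneg (p i : ℕ) : 0 ≤ (dd (i + p) : ℝ) / (2:ℝ) ^ (i + 1) := by positivity

lemma dd_term_le (p i : ℕ) : (dd (i + p) : ℝ) / (2:ℝ) ^ (i + 1) ≤ 1 / (2:ℝ) ^ (i + 1) := by
  apply div_le_div_of_nonneg_right _ (by positivity)
  exact_mod_cast dd_le _

lemma summable_dd (p : ℕ) : Summable (fun i : ℕ => (dd (i + p) : ℝ) / (2:ℝ) ^ (i + 1)) :=
  Summable.of_nonneg_of_le (dd_term_nonneg p) (dd_term_le p) summable_geo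

lemma exists_zero (p : ℕ) : ∃ i, dd (i + p) = 0 := by
  obtain ⟨i, h1, h2, h3⟩ := exists_align p
  have h4 := dd_eq i 1 (by omega)
  have h5 : aa i / 2 ^ (ln i - 1 - 1) % 2 = 0 := by
    rw [h2]
    have : 2 ^ (ln i - 1) = 2 ^ (ln i - 1 - 1) * 2 := by
      rw [← pow_succ]
      congr 1
      omega
    rw [this, Nat.mul_div_cancel_left _ (by positivity)]
  have h6 : p ≤ PP i + 1 := by
    have := le_PP i
    omega
  refine ⟨PP i + 1 - p, ?_⟩
  rw [Nat.sub_add_cancel h6, h4, h5]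

lemma tail_lt (p : ℕ) : ∑' i : ℕ, (dd (i + p) : ℝ) / (2:ℝ) ^ (i + 1) < 1 := by
  obtain ⟨i, hi⟩ := exists_zero p
  rw [← tsum_geo]
  apply Summable.tsum_lt_tsum_of_nonneg (i := i) (dd_term_nonneg p) (dd_term_le p) _ summable_geo
  rw [hi]
  simp

lemma tail_nonneg (p : ℕ) : 0 ≤ ∑' i : ℕ, (dd (i + p) : ℝ) / (2:ℝ) ^ (i + 1) :=
  tsum_nonneg (dd_term_nonneg p)

lemma V_sum (p : ℕ) :
    (V p : ℝ) = (2:ℝ) ^ p * ∑ i ∈ Finset.range p, (dd i : ℝ) / (2:ℝ) ^ (i + 1) := by
  induction p with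
  | zero => simp [V]
  | succ p ih =>
    rw [V_succ, Finset.sum_range_succ, mul_add, pow_succ]
    push_cast
    rw [ih]
    field_simp

lemma xi_mul (p : ℕ) : xi * (2:ℝ) ^ p = V p + ∑' i : ℕ, (dd (i + p) : ℝ) / (2:ℝ) ^ (i + 1) := by
  have hs : Summable (fun i : ℕ => (dd i : ℝ) / (2:ℝ) ^ (i + 1)) := summable_dd 0
  have h := hs.sum_add_tsum_nat_add p
  unfold xi
  rw [← h, add_mul, V_sum]
  have : (∑' i : ℕ, (dd (i + p) : ℝ) / (2:ℝ) ^ (i + p + 1)) * (2:ℝ) ^ p
      = ∑' i : ℕ, (dd (i + p) : ℝ) / (2:ℝ) ^ (i + 1) := by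
    rw [← tsum_mul_right]
    apply tsum_congr
    intro i
    have : (2:ℝ) ^ (i + p + 1) = (2:ℝ) ^ (i + 1) * (2:ℝ) ^ p := by
      rw [← pow_add]
      congr 1
      ring
    rw [this]
    field_simp
  rw [this]
  ring

lemma floor_xi (p : ℕ) : ⌊xi * (2:ℝ) ^ p⌋ = (V p : ℤ) := by
  rw [Int.floor_eq_iff, xi_mul]
  have h1 := tail_nonneg p
  have h2 := tail_lt p
  push_cast
  constructor <;> linarith

lemma digits_length (i : ℕ) : (Nat.digits 2 (aa i)).length = ln i := by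
  have h0 := aa_pos i
  rw [Nat.length_digits 2 (aa i) (by norm_num) h0.ne']
  have h1 : Nat.log 2 (aa i) = ln i - 1 := by
    apply Nat.log_eq_of_pow_le_of_lt_pow (aa_ge i)
    have := ln_pos i
    have e : ln i - 1 + 1 = ln i := by omega
    rw [e]
    exact aa_lt i
  rw [h1]
  have := ln_pos i
  omega

lemma PP_sum (n : ℕ) : ∑ j ∈ Finset.range n, (Nat.digits 2 (aa j)).length = PP n := by
  induction n with
  | zero => simp [PP_zero]
  | succ n ih => rw [Finset.sum_range_succ, ih, digits_length, PP_succ]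

lemma dd_spec (n r : ℕ) (hr : r < (Nat.digits 2 (aa n)).length) :
    dd ((∑ j ∈ Finset.range n, (Nat.digits 2 (aa j)).length) + r)
      = ((Nat.digits 2 (aa n)).reverse).getD r 0 := by
  rw [PP_sum, List.getD_reverse _ hr, Nat.getD_digits _ _ (by norm_num)]
  rw [digits_length] at hr ⊢
  exact dd_eq n r hr

end Pool.Agent.W_MP_b5ad3e_nt
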