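import Pool.Agent.W_MP_b5ad3e_nt.Elt
import Pool.Agent.W_MP_b5ad3e_nt.Phi

set_option autoImplicit false

namespace Pool.Agent.W_MP_b5ad3e_nt

open Filter

structure St where
  t : ℕ
  r : ℕ
  P : ℕ
  S : ℝ

/-- enumeration of the directions, each one infinitely often -/
def dirJ (j : ℕ) : ℕ × ℕ × Bool :=
  ((Encodable.decode (α := ℕ × ℕ × Bool) j.unpair.1)).getD (1, 0, true)

def okDir (M : ℕ) (x : ℕ × ℕ × Bool) : Prop := x.1 ∣ M ∧ x.2.1 < 2 ^ x.1

open Classical in
noncomputable def dir (M P : ℕ) : ℕ × ℕ × Bool :=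
  if okDir M (dirJ (Nat.log 2 (Nat.log 2 P))) then dirJ (Nat.log 2 (Nat.log 2 P))
  else (1, 0, true)

lemma dir_ok (M P : ℕ) : okDir M (dir M P) := by
  unfold dir
  split_ifs with h
  · exact h
  · exact ⟨one_dvd _, by simp⟩

noncomputable def dS (s : St) : ℕ × ℕ × Bool := dir (MM s.t) s.P

noncomputable def hS (s : St) : ℝ := hh s.t (dS s).1

def tilts (s : St) : Prop := s.S + hS s ≤ Phi s.P

def sg (b : Bool) : ℤ := if b then 1 else -1

open Classical in
noncomputable def sgn (s : St) : ℤ := if tilts s then sg (dS s).2.2 else 0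

lemma adm (s : St) : Adm s.t (dS s).1 (dS s).2.1 (sgn s) := by
  have h := dir_ok (MM s.t) s.P
  refine ⟨h.1, h.2, ?_⟩
  unfold sgn sg
  split_ifs <;> simp

/-- length of the alignment element -/
def al (s : St) : ℕ := nn s.t + MM (s.t + 1) - (s.P + nn s.t) % MM (s.t + 1)

noncomputable def val (s : St) : ℕ :=
  if s.r < RR s.t then elt s.t s.r (dS s).1 (dS s).2.1 (sgn s) else 2 ^ (al s - 1)

def len (s : St) : ℕ := if s.r < RR s.t then nn s.t else al s

open Classical in
noncomputable def step (s : St) : St :=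
  if s.r < RR s.t then ⟨s.t, s.r + 1, s.P + nn s.t, if tilts s then s.S + hS s else s.S⟩
  else ⟨s.t + 1, 0, s.P + al s, s.S⟩

lemma al_bounds (s : St) : nn s.t < al s ∧ al s ≤ nn s.t + MM (s.t + 1) := by
  unfold al
  have := Nat.mod_lt (s.P + nn s.t) (MM_pos (s.t + 1))
  omega

lemma al_dvd (s : St) : MM (s.t + 1) ∣ s.P + al s := by
  unfold al
  have h1 := Nat.mod_lt (s.P + nn s.t) (MM_pos (s.t + 1))
  have h2 := Nat.div_add_mod (s.P + nn s.t) (MM (s.t + 1))
  have : s.P + (nn s.t + MM (s.t + 1) - (s.P + nn s.t) % MM (s.t + 1))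
      = MM (s.t + 1) * ((s.P + nn s.t) / MM (s.t + 1) + 1) := by
    rw [mul_add, mul_one]
    omega
  rw [this]
  exact dvd_mul_right _ _

lemma step_P (s : St) : (step s).P = s.P + len s := by
  unfold step len
  split_ifs <;> rfl

lemma len_pos (s : St) : 1 ≤ len s := by
  unfold len
  have := al_bounds s
  have := nn_pos s.t
  split_ifs <;> omega

lemma len_le (s : St) : len s ≤ 2 * (s.t + 17) ^ 2 := by
  unfold len
  have h1 := al_bounds s
  have h2 := nn_le_sq s.t
  split_ifs <;> omega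

lemma val_lt (s : St) : val s < 2 ^ len s := by
  unfold val len
  split_ifs with h
  · exact elt_lt _ _ _ _ _ h (adm s)
  · have := al_bounds s
    exact Nat.pow_lt_pow_right (by norm_num) (by omega)

lemma val_ge (s : St) : 2 ^ (len s - 1) ≤ val s := by
  unfold val len
  split_ifs with h
  · exact elt_ge _ _ _ _ _
  · exact le_rfl

structure Inv (s : St) : Prop where
  hr : s.r ≤ RR s.t
  hd : MM s.t ∣ s.P
  hS0 : 0 ≤ s.S
  hS1 : s.S ≤ Phi s.P
  hrP : s.r ≤ s.P
  ht : 2 ^ s.t ≤ 2 * s.P + 1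

lemma hS_ge (s : St) : 1 ≤ hS s := hh_ge _ _ (dir_ok (MM s.t) s.P).1
lemma hS_le (s : St) : hS s ≤ s.t + 16 := hh_le _ _ (dir_ok (MM s.t) s.P).1

lemma Inv_step (s : St) (h : Inv s) : Inv (step s) := by
  obtain ⟨hr, hd, hS0, hS1, hrP, ht⟩ := h
  have hnn := nn_pos s.t
  have hal := al_bounds s
  unfold step
  split_ifs with h1 h2
  · refine ⟨h1, ?_, ?_, ?_, ?_, ?_⟩
    · exact dvd_add hd (MM_dvd_nn _)
    · have := hS_ge s
      simp only
      linarith
    · simp only
      exact (show s.S + hS s ≤ Phi s.P from h2).trans (Phi_mono_nat (by omega))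
    · simp only; omega
    · simp only; omega
  · refine ⟨h1, ?_, hS0, ?_, ?_, ?_⟩
    · exact dvd_add hd (MM_dvd_nn _)
    · simp only
      exact hS1.trans (Phi_mono_nat (by omega))
    · simp only; omega
    · simp only; omega
  · refine ⟨Nat.zero_le _, ?_, hS0, ?_, Nat.zero_le _, ?_⟩
    · exact al_dvd s
    · simp only
      exact hS1.trans (Phi_mono_nat (by omega))
    · simp only
      have h3 : RR s.t ≤ s.P := by omega
      have h4 := RR_ge s.t
      rw [pow_succ]
      omega

noncomputable def st : ℕ → St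
  | 0 => ⟨0, 0, 0, 0⟩
  | i + 1 => step (st i)

lemma st_succ (i : ℕ) : st (i + 1) = step (st i) := rfl

lemma Inv_st (i : ℕ) : Inv (st i) := by
  induction i with
  | zero =>
    refine ⟨Nat.zero_le _, dvd_zero _, le_rfl, ?_, Nat.zero_le _, ?_⟩
    · simp [st, Phi_zero]
    · simp [st]
  | succ i ih => exact Inv_step _ ih

/-- the sequence of elements -/
noncomputable def aa (i : ℕ) : ℕ := val (st i)
noncomputable def ln (i : ℕ) : ℕ := len (st i)
noncomputable def PP (i : ℕ) : ℕ := (st i).P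
noncomputable def tt (i : ℕ) : ℕ := (st i).t

lemma PP_zero : PP 0 = 0 := rfl
lemma PP_succ (i : ℕ) : PP (i + 1) = PP i + ln i := step_P _
lemma ln_pos (i : ℕ) : 1 ≤ ln i := len_pos _
lemma ln_le (i : ℕ) : ln i ≤ 2 * (tt i + 17) ^ 2 := len_le _
lemma aa_lt (i : ℕ) : aa i < 2 ^ ln i := val_lt _
lemma aa_ge (i : ℕ) : 2 ^ (ln i - 1) ≤ aa i := val_ge _

lemma PP_strictMono : StrictMono PP := by
  apply strictMono_nat_of_lt_succ
  intro i
  rw [PP_succ]
  have := ln_pos i
  omega

lemma le_PP (i : ℕ) : i ≤ PP i := PP_strictMono.le_apply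

lemma tt_succ (i : ℕ) : tt (i + 1) = tt i ∨ tt (i + 1) = tt i + 1 := by
  unfold tt
  rw [st_succ]
  unfold step
  split_ifs <;> simp

lemma tt_mono : Monotone tt := by
  apply monotone_nat_of_le_succ
  intro i
  rcases tt_succ i with h | h <;> omega

lemma tt_pow (i : ℕ) : 2 ^ tt i ≤ 2 * PP i + 1 := (Inv_st i).ht

lemma aa_strictMono : StrictMono aa := by
  apply strictMono_nat_of_lt_succ
  intro i
  -- if the length increases we are done
  have key : ln i < ln (i + 1) → aa i < aa (i + 1) := by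
    intro h
    calc aa i < 2 ^ ln i := aa_lt i
      _ ≤ 2 ^ (ln (i + 1) - 1) := Nat.pow_le_pow_right (by norm_num) (by omega)
      _ ≤ _ := aa_ge _
  by_cases h1 : (st i).r < RR (st i).t
  · -- main element
    have e1 : (st (i + 1)).t = (st i).t := by
      rw [st_succ]; unfold step; rw [if_pos h1]
    have e2 : (st (i + 1)).r = (st i).r + 1 := by
      rw [st_succ]; unfold step; rw [if_pos h1]
    by_cases h2 : (st (i + 1)).r < RR (st (i + 1)).t
    · unfold aa val
      rw [if_pos h1, if_pos h2]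
      have h3 := elt_mono (st i).t (st i).r (st (i + 1)).r (dS (st i)).1 (dS (st i)).2.1
        (dS (st (i + 1))).1 (dS (st (i + 1))).2.1 (sgn (st i)) (sgn (st (i + 1)))
        (by omega) (by rw [← e1]; exact h2) (adm _)
      rw [e1]
      exact h3
    · apply key
      unfold ln len
      rw [if_pos h1, if_neg h2]
      have := (al_bounds (st (i + 1))).1
      rw [e1] at this
      exact this
  · -- alignment element
    have e1 : (st (i + 1)).t = (st i).t + 1 := by
      rw [st_succ]; unfold step; rw [if_neg h1]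
    have e2 : (st (i + 1)).r = 0 := by
      rw [st_succ]; unfold step; rw [if_neg h1]
    have h2 : (st (i + 1)).r < RR (st (i + 1)).t := by
      rw [e2]
      have := RR_ge (st (i + 1)).t
      have : 0 < 2 ^ (st (i + 1)).t := by positivity
      omega
    apply key
    unfold ln len
    rw [if_neg h1, if_pos h2, e1]
    have := (al_bounds (st i)).2
    have := nn_step (st i).t
    omega

lemma aa_pos (i : ℕ) : 0 < aa i := lt_of_lt_of_le (by positivity) (aa_ge i)

/-- start index of the stages -/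
def idx : ℕ → ℕ
  | 0 => 0
  | T + 1 => idx T + RR T + 1

lemma st_idx_aux (T i : ℕ) (h1 : (st i).t = T) (h2 : (st i).r = 0) (r : ℕ) (hr : r ≤ RR T) :
    (st (i + r)).t = T ∧ (st (i + r)).r = r := by
  induction r with
  | zero => exact ⟨h1, h2⟩
  | succ r ih =>
    obtain ⟨a, b⟩ := ih (by omega)
    have : (st (i + r)).r < RR (st (i + r)).t := by
      rw [a, b]; omega
    have e : st (i + (r + 1)) = step (st (i + r)) := rfl
    rw [e]
    unfold step
    rw [if_pos this]
    simp only
    exact ⟨a, by rw [b]⟩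

lemma st_idx (T : ℕ) : (st (idx T)).t = T ∧ (st (idx T)).r = 0 := by
  induction T with
  | zero => exact ⟨rfl, rfl⟩
  | succ T ih =>
    obtain ⟨a, b⟩ := st_idx_aux T (idx T) ih.1 ih.2 (RR T) le_rfl
    have e : st (idx (T + 1)) = step (st (idx T + RR T)) := rfl
    have : ¬ (st (idx T + RR T)).r < RR (st (idx T + RR T)).t := by
      rw [a, b]; omega
    rw [e]
    unfold step
    rw [if_neg this]
    simp only
    exact ⟨by rw [a], trivial⟩

lemma st_idx' (T r : ℕ) (hr : r ≤ RR T) : (st (idx T + r)).t = T ∧ (st (idx T + r)).r = r :=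
  st_idx_aux T (idx T) (st_idx T).1 (st_idx T).2 r hr

lemma tt_idx (T : ℕ) : tt (idx T) = T := (st_idx T).1

lemma tt_ge (T i : ℕ) (h : idx T ≤ i) : T ≤ tt i := by
  have := tt_mono h
  rwa [tt_idx] at this

/-- Copeland-Erdos growth -/
lemma count_ge (T N : ℕ) (h : 2 ^ nn T ≤ N) : RR T ≤ Nat.card {n : ℕ | aa n ≤ N} := by
  have hfin : {n : ℕ | aa n ≤ N}.Finite := by
    apply (Set.finite_Iic N).subset
    intro n hn
    exact (aa_strictMono.le_apply (x := n)).trans hn
  have hsub : ((Finset.Ico (idx T) (idx T + RR T) : Finset ℕ) : Set ℕ) ⊆ {n : ℕ | aa n ≤ N} := by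
    intro i hi
    simp only [Finset.coe_Ico, Set.mem_Ico] at hi
    obtain ⟨r, rfl⟩ := Nat.exists_eq_add_of_le hi.1
    obtain ⟨a, b⟩ := st_idx' T r (by omega)
    have h1 := aa_lt (idx T + r)
    have h2 : ln (idx T + r) = nn T := by
      unfold ln len
      rw [a, b, if_pos (by omega)]
    rw [h2] at h1
    simp only [Set.mem_setOf_eq]
    omega
  have h3 := Nat.card_mono hfin hsub
  simpa using h3

lemma growth_aa (θ : ℝ) (hθ : θ < 1) :
    ∀ᶠ N : ℕ in atTop, (N : ℝ) ^ θ < (Nat.card {n : ℕ | aa n ≤ N} : ℝ) := by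
  set θ' := max θ 0 with hθ'
  have h0 : 0 ≤ θ' := le_max_right _ _
  have h1 : θ' < 1 := max_lt hθ (by norm_num)
  obtain ⟨T0, hT0⟩ := eventually_atTop.1 (growth θ' h0 h1)
  filter_upwards [eventually_ge_atTop (2 ^ nn T0)] with N hN
  -- the stage
  have hex : ∃ T, N < 2 ^ nn T := by
    refine ⟨N, ?_⟩
    calc N < 2 ^ N := Nat.lt_two_pow_self
      _ ≤ 2 ^ nn N := Nat.pow_le_pow_right (by norm_num) (nn_strictMono.le_apply)
  classical
  set T' := Nat.find hex with hT'
  have hT'spec : N < 2 ^ nn T' := Nat.find_spec hex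
  have hTlt : T0 < T' := by
    by_contra hcon
    push Not at hcon
    have : 2 ^ nn T' ≤ 2 ^ nn T0 :=
      Nat.pow_le_pow_right (by norm_num) (nn_strictMono.monotone hcon)
    omega
  obtain ⟨T, hT⟩ : ∃ T, T' = T + 1 := ⟨T' - 1, by omega⟩
  have hTN : 2 ^ nn T ≤ N := by
    have := Nat.find_min hex (m := T) (by omega)
    omega
  have h2 := count_ge T N hTN
  have h3 := hT0 T (by omega)
  have hN1 : (1:ℝ) ≤ N := by
    have : 1 ≤ N := le_trans Nat.one_le_two_pow hN
    exact_mod_cast this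
  calc (N : ℝ) ^ θ ≤ (N : ℝ) ^ θ' := Real.rpow_le_rpow_of_exponent_le hN1 (le_max_left _ _)
    _ ≤ ((2:ℝ) ^ (nn (T + 1) : ℝ)) ^ θ' := by
        apply Real.rpow_le_rpow (by linarith) _ h0
        rw [Real.rpow_natCast]
        rw [hT] at hT'spec
        exact_mod_cast hT'spec.le
    _ = (2:ℝ) ^ (θ' * (nn (T + 1) : ℝ)) := by
        rw [← Real.rpow_mul (by norm_num), mul_comm]
    _ < (RR T : ℝ) := h3
    _ ≤ _ := by exact_mod_cast h2

/-! discrepancy increments -/

lemma ln_dvd {m : ℕ} (i : ℕ) (hm : m ∣ MM (tt i)) : m ∣ ln i := by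
  unfold ln len
  split_ifs with h
  · exact hm.trans (MM_dvd_nn _)
  · have h1 := al_dvd (st i)
    have h2 := (Inv_st i).hd
    have h3 : MM (st i).t ∣ (st i).P + al (st i) := (MM_dvd (Nat.le_succ _)).trans h1
    exact hm.trans ((Nat.dvd_add_right h2).1 h3)

lemma PP_dvd {m : ℕ} (i : ℕ) (hm : m ∣ MM (tt i)) : m ∣ PP i := hm.trans (Inv_st i).hd

noncomputable def SS (i : ℕ) : ℝ := (st i).S

/-- alignment error -/
noncomputable def AA (i : ℕ) : ℝ := 2 * ((tt i : ℝ) + 17) ^ 3

lemma AA_nonneg (i : ℕ) : 0 ≤ AA i := by unfold AA; positivity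

lemma incr_bound (m k i : ℕ) (hm1 : 1 ≤ m) (hm : m ∣ MM (tt i)) (hk : k < 2 ^ m) :
    |D (2 ^ m) k (ln i / m) (aa i)| ≤ cc m * (SS (i + 1) - SS i) + (AA (i + 1) - AA i) := by
  by_cases h : (st i).r < RR (st i).t
  · have e1 : ln i = nn (st i).t := by unfold ln len; rw [if_pos h]
    have e2 : aa i = elt (st i).t (st i).r (dS (st i)).1 (dS (st i)).2.1 (sgn (st i)) := by
      unfold aa val; rw [if_pos h]
    have e3 : AA (i + 1) = AA i := by
      unfold AA tt
      rw [st_succ]; unfold step; rw [if_pos h]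
    rw [e1, e2, e3, sub_self, add_zero]
    have hmQ : m * (MM (st i).t / m) = MM (st i).t := Nat.mul_div_cancel' hm
    have hb := elt_D_bound (st i).t (st i).r (dS (st i)).1 (dS (st i)).2.1 (sgn (st i)) h
      (adm _) m (MM (st i).t / m) k hmQ hk
    refine hb.trans ?_
    have e4 : SS (i + 1) - SS i = |((sgn (st i) : ℤ) : ℝ)| * hS (st i) := by
      unfold SS sgn sg
      rw [st_succ]
      unfold step
      rw [if_pos h]
      by_cases h2 : tilts (st i)
      · rw [if_pos h2]
        cases (dS (st i)).2.2 <;> simp [h2]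
      · simp [h2]
    rw [e4]
    apply le_of_eq
    unfold hS
    ring
  · have e3 : AA (i + 1) - AA i = 2 * (((tt i : ℝ) + 18) ^ 3 - ((tt i : ℝ) + 17) ^ 3) := by
      have : tt (i + 1) = tt i + 1 := by
        unfold tt
        rw [st_succ]; unfold step; rw [if_neg h]
      unfold AA
      rw [this]
      push_cast
      ring
    have e4 : SS (i + 1) = SS i := by
      unfold SS
      rw [st_succ]; unfold step; rw [if_neg h]
    rw [e4, sub_self, mul_zero, zero_add, e3]
    have h1 := abs_D_le (B := 2 ^ m) (by positivity) k (ln i / m) (aa i)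
    have h2 : ((ln i / m : ℕ) : ℝ) ≤ (ln i : ℝ) := by
      exact_mod_cast Nat.div_le_self _ _
    have h3 : (ln i : ℝ) ≤ 2 * ((tt i : ℝ) + 17) ^ 2 := by exact_mod_cast ln_le i
    have h4 : (0:ℝ) ≤ (tt i : ℝ) := by positivity
    nlinarith

/-- inside a run the discrepancy moves in the chosen direction -/
lemma incr_dir (m k i : ℕ) (b : Bool) (hm1 : 1 ≤ m) (hm : m ∣ MM (tt i)) (hk : k < 2 ^ m)
    (hd : dS (st i) = (m, k, b)) :
    cc m * (SS (i + 1) - SS i) - (AA (i + 1) - AA i)
      ≤ (sg b : ℝ) * D (2 ^ m) k (ln i / m) (aa i) := by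
  by_cases h : (st i).r < RR (st i).t
  · have e1 : ln i = nn (st i).t := by unfold ln len; rw [if_pos h]
    have e2 : aa i = elt (st i).t (st i).r (dS (st i)).1 (dS (st i)).2.1 (sgn (st i)) := by
      unfold aa val; rw [if_pos h]
    have e3 : AA (i + 1) = AA i := by
      unfold AA tt
      rw [st_succ]; unfold step; rw [if_pos h]
    have ha := adm (st i)
    rw [e1, e2, e3, sub_self, sub_zero]
    rw [hd] at ha ⊢
    simp only at ha ⊢
    rw [elt_D_dir (st i).t (st i).r m k (sgn (st i)) h ha]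
    apply le_of_eq
    unfold SS
    rw [st_succ]
    unfold step
    rw [if_pos h]
    by_cases h2 : tilts (st i)
    · simp only [h2, if_true]
      unfold sgn
      rw [if_pos h2, hd]
      unfold hS
      rw [hd]
      simp only
      cases b <;> simp [sg] <;> ring
    · simp only [h2, if_false]
      unfold sgn
      rw [if_neg h2]
      simp
  · have hb := incr_bound m k i hm1 hm hk
    have e4 : SS (i + 1) = SS i := by
      unfold SS
      rw [st_succ]; unfold step; rw [if_neg h]
    rw [e4, sub_self, mul_zero, zero_add] at hb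
    rw [e4, sub_self, mul_zero, zero_sub]
    have h1 := neg_abs_le (D (2 ^ m) k (ln i / m) (aa i))
    have h2 := le_abs_self (D (2 ^ m) k (ln i / m) (aa i))
    cases b <;> simp [sg] <;> linarith

/-- the mass follows `Phi` -/
lemma SS_le (i : ℕ) : SS i ≤ Phi (PP i) := (Inv_st i).hS1
lemma SS_nonneg (i : ℕ) : 0 ≤ SS i := (Inv_st i).hS0

lemma tt_tau (i : ℕ) : (tt i : ℝ) + 18 ≤ tau (PP i) := by
  unfold tau
  have h := tt_pow i
  have h1 : ((2:ℝ) ^ (tt i : ℝ)) ≤ 2 * (PP i : ℝ) + 1 := by
    rw [Real.rpow_natCast]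
    exact_mod_cast h
  have h2 : (tt i : ℝ) ≤ Real.logb 2 (2 * (PP i : ℝ) + 1) := by
    rw [Real.le_logb_iff_rpow_le (by norm_num) (by positivity)]
    exact h1
  linarith

lemma gap_bound : ∃ E i1, 0 ≤ E ∧ ∀ i, i1 ≤ i → Phi (PP i) - SS i ≤ E + 3 * ((tt i : ℝ) + 17) := by
  obtain ⟨P0, hP16, hP0⟩ := Phi_incr
  obtain ⟨P1, hP1⟩ := eventually_atTop.1 (tau_small 2)
  obtain ⟨i1, hi1⟩ := exists_nat_ge (max P0 P1)
  have hinc : ∀ i, i1 ≤ i → Phi (PP (i + 1)) ≤ Phi (PP i) + 1 := by
    intro i hi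
    have h1 : (i1 : ℝ) ≤ PP i := by exact_mod_cast hi.trans (le_PP i)
    have h2 : P0 ≤ (PP i : ℝ) := ((le_max_left _ _).trans hi1).trans h1
    have h3 : P1 ≤ (PP i : ℝ) := ((le_max_right _ _).trans hi1).trans h1
    have h4 := hP1 _ h3
    have h5 := tt_tau i
    rw [PP_succ]
    push_cast
    apply hP0 _ h2 _ (by positivity)
    refine le_trans ?_ h4
    have h6 : (ln i : ℝ) ≤ 2 * ((tt i : ℝ) + 17) ^ 2 := by exact_mod_cast ln_le i
    have h7 : (0:ℝ) ≤ (tt i : ℝ) := by positivity
    have h8 : ((tt i : ℝ) + 17) ^ 2 ≤ tau (PP i) ^ 2 := by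
      apply pow_le_pow_left₀ (by linarith) (by linarith)
    have h9 : tau (PP i) ^ 2 ≤ tau (PP i) ^ 3 := by
      have : 1 ≤ tau (PP i) := by linarith
      nlinarith [sq_nonneg (tau (PP i))]
    linarith
  refine ⟨Phi (PP i1) - SS i1, i1, by linarith [SS_le i1], ?_⟩
  intro i hi
  induction i, hi using Nat.le_induction with
  | base =>
    have : (0:ℝ) ≤ (tt i1 : ℝ) := by positivity
    linarith
  | succ i hi ih =>
    have h1 := hinc i hi
    have hE := SS_le i1
    have h7 : (0:ℝ) ≤ (tt i : ℝ) := by positivity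
    by_cases h : (st i).r < RR (st i).t
    · have e3 : tt (i + 1) = tt i := by
        unfold tt
        rw [st_succ]; unfold step; rw [if_pos h]
      rw [e3]
      by_cases h2 : tilts (st i)
      · have e4 : SS (i + 1) = SS i + hS (st i) := by
          unfold SS
          rw [st_succ]; unfold step; rw [if_pos h, if_pos h2]
        rw [e4]
        have := hS_ge (st i)
        linarith
      · have e4 : SS (i + 1) = SS i := by
          unfold SS
          rw [st_succ]; unfold step; rw [if_pos h, if_neg h2]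
        rw [e4]
        have h3 := hS_le (st i)
        have h4 : Phi (PP i) < SS i + hS (st i) := by
          unfold tilts at h2
          push Not at h2
          exact h2
        have h5 : hS (st i) ≤ (tt i : ℝ) + 16 := h3
        linarith
    · have e3 : tt (i + 1) = tt i + 1 := by
        unfold tt
        rw [st_succ]; unfold step; rw [if_neg h]
      have e4 : SS (i + 1) = SS i := by
        unfold SS
        rw [st_succ]; unfold step; rw [if_neg h]
      rw [e3, e4]
      push_cast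
      linarith

/-- arbitrarily late alignment elements -/
lemma exists_align (i : ℕ) : ∃ i', i ≤ i' ∧ aa i' = 2 ^ (ln i' - 1) ∧ 2 ≤ ln i' := by
  have hle : ∀ T, T ≤ idx T := by
    intro T
    induction T with
    | zero => exact le_rfl
    | succ T ih => simp only [idx]; omega
  refine ⟨idx i + RR i, (hle i).trans (Nat.le_add_right _ _), ?_, ?_⟩
  · obtain ⟨a, b⟩ := st_idx' i (RR i) le_rfl
    unfold aa val ln len
    rw [a, b, if_neg (by omega), if_neg (by omega)]
  · obtain ⟨a, b⟩ := st_idx' i (RR i) le_rfl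
    unfold ln len
    rw [a, b, if_neg (by omega)]
    have h1 := al_bounds (st (idx i + RR i))
    have h2 := nn_pos (st (idx i + RR i)).t
    omega

end Pool.Agent.W_MP_b5ad3e_nt
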