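import Pool.Agent.W_MP_b5ad3e_nt.Occ

set_option autoImplicit false

namespace Pool.Agent.W_MP_b5ad3e_nt

/-- `x`, read as `L` words of `M` bits, is balanced for every aligned block length `m ∣ M`. -/
def Bal (M L x : ℕ) : Prop :=
  ∀ m Q k : ℕ, m * Q = M → k < 2 ^ m → D (2 ^ m) k (Q * L) x = 0

lemma Bal_add {M L1 L2 y z : ℕ} (hy : Bal M L1 y) (hz : Bal M L2 z) (hlt : z < (2 ^ M) ^ L2) :
    Bal M (L1 + L2) (y * (2 ^ M) ^ L2 + z) := by
  intro m Q k hmQ hk
  have e : (2 ^ M) ^ L2 = (2 ^ m) ^ (Q * L2) := by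
    rw [← pow_mul, ← pow_mul, ← hmQ]
    congr 1
    ring
  rw [mul_add, e]
  rw [e] at hlt
  rw [D_add (by positivity) k _ _ y z hlt, hy m Q k hmQ hk, hz m Q k hmQ hk, add_zero]

lemma Bal_list {M : ℕ} (L : List ℕ) (hL : ∀ W ∈ L, W < 2 ^ M) (c : ℝ)
    (hc : ∀ g : ℕ → ℝ, (L.map g).sum = c * ∑ W ∈ Finset.range (2 ^ M), g W) :
    Bal M L.length (Nat.ofDigits (2 ^ M) L) := by
  intro m Q k hmQ hk
  have e : 2 ^ M = (2 ^ m) ^ Q := by rw [← pow_mul, hmQ]
  rw [D_ofDigits (by positivity) e k L hL, hc, e, sum_D hk, mul_zero]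

/-- all permutation blocks -/
lemma perm_blocks (M : ℕ) (hM : 1 ≤ M) :
    ∃ Y : Finset ℕ, Y.card = (2 ^ M).factorial ∧
      ∀ y ∈ Y, y < (2 ^ M) ^ (2 ^ M) ∧ Bal M (2 ^ M) y := by
  classical
  have hK1 : 1 < 2 ^ M := Nat.one_lt_two_pow (by omega)
  let lst : Equiv.Perm (Fin (2 ^ M)) → List ℕ := fun σ => List.ofFn (fun i => (σ i : ℕ))
  have hlt : ∀ σ, ∀ W ∈ lst σ, W < 2 ^ M := by
    intro σ W hW
    simp only [lst, List.mem_ofFn] at hW
    obtain ⟨i, rfl⟩ := hW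
    exact (σ i).isLt
  have hlen : ∀ σ, (lst σ).length = 2 ^ M := by
    intro σ
    simp [lst]
  let val : Equiv.Perm (Fin (2 ^ M)) → ℕ := fun σ => Nat.ofDigits (2 ^ M) (lst σ)
  have hinj : Function.Injective val := by
    intro σ τ h
    have := Nat.ofDigits_inj_of_len_eq hK1 (by rw [hlen, hlen]) (hlt σ) (hlt τ) h
    simp only [lst, List.ofFn_inj] at this
    ext i
    exact congrFun this i
  refine ⟨Finset.univ.image val, ?_, ?_⟩
  · rw [Finset.card_image_of_injective _ hinj, Finset.card_univ, Fintype.card_perm,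
      Fintype.card_fin]
  · intro y hy
    simp only [Finset.mem_image, Finset.mem_univ, true_and] at hy
    obtain ⟨σ, rfl⟩ := hy
    refine ⟨?_, ?_⟩
    · have := Nat.ofDigits_lt_base_pow_length hK1 (hlt σ)
      rwa [hlen] at this
    · have := Bal_list (M := M) (lst σ) (hlt σ) 1 (by
        intro g
        simp only [lst, List.map_ofFn, List.sum_ofFn, one_mul, Function.comp]
        rw [Finset.sum_range]
        exact Equiv.sum_comp σ (fun i : Fin (2 ^ M) => g i))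
      rwa [hlen] at this

lemma word_set (M : ℕ) (hM : 1 ≤ M) (q : ℕ) :
    ∃ Y : Finset ℕ, Y.card = (2 ^ M).factorial ^ q ∧
      ∀ y ∈ Y, y < (2 ^ M) ^ (2 ^ M * q) ∧ Bal M (2 ^ M * q) y := by
  classical
  obtain ⟨P, hPc, hP⟩ := perm_blocks M hM
  induction q with
  | zero =>
    refine ⟨{0}, by simp, ?_⟩
    intro y hy
    simp only [Finset.mem_singleton] at hy
    subst hy
    refine ⟨by simp, ?_⟩
    intro m Q k _ _
    simp [D_zero]
  | succ q ih =>
    obtain ⟨Y, hYc, hY⟩ := ih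
    refine ⟨Finset.image₂ (fun y p => y * (2 ^ M) ^ (2 ^ M) + p) Y P, ?_, ?_⟩
    · rw [Finset.card_image₂_iff.2, hYc, hPc, pow_succ]
      rintro ⟨y, p⟩ h1 ⟨y', p'⟩ h2 h
      simp only [Set.mem_prod, Finset.mem_coe] at h1 h2
      simp only at h
      have hp := (hP p h1.2).1
      have hp' := (hP p' h2.2).1
      have hpos : 0 < (2 ^ M) ^ (2 ^ M) := by positivity
      have e1 : y = y' := by
        have a1 : (y * (2 ^ M) ^ (2 ^ M) + p) / (2 ^ M) ^ (2 ^ M) = y := by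
          rw [mul_comm, Nat.mul_add_div hpos, Nat.div_eq_of_lt hp, add_zero]
        have a2 : (y' * (2 ^ M) ^ (2 ^ M) + p') / (2 ^ M) ^ (2 ^ M) = y' := by
          rw [mul_comm, Nat.mul_add_div hpos, Nat.div_eq_of_lt hp', add_zero]
        rw [← a1, ← a2, h]
      subst e1
      simpa using h
    · intro x hx
      rw [Finset.mem_image₂] at hx
      obtain ⟨y, hy, p, hp, rfl⟩ := hx
      obtain ⟨hy1, hy2⟩ := hY y hy
      obtain ⟨hp1, hp2⟩ := hP p hp
      refine ⟨?_, ?_⟩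
      · have : (2 ^ M) ^ (2 ^ M * (q + 1)) = (2 ^ M) ^ (2 ^ M * q) * (2 ^ M) ^ (2 ^ M) := by
          rw [← pow_add]
          congr 1
        rw [this]
        calc y * (2 ^ M) ^ (2 ^ M) + p < y * (2 ^ M) ^ (2 ^ M) + (2 ^ M) ^ (2 ^ M) := by omega
          _ = (y + 1) * (2 ^ M) ^ (2 ^ M) := by ring
          _ ≤ _ := Nat.mul_le_mul_right _ hy1
      · have := Bal_add hy2 hp2 hp1
        convert! this using 1

/-- the sorted enumeration of balanced words -/
lemma word_seq (M : ℕ) (hM : 1 ≤ M) (q : ℕ) :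
    ∃ Y : ℕ → ℕ, (∀ r r', r < r' → r' < (2 ^ M).factorial ^ q → Y r < Y r') ∧
      ∀ r, r < (2 ^ M).factorial ^ q → Y r < (2 ^ M) ^ (2 ^ M * q) ∧ Bal M (2 ^ M * q) (Y r) := by
  classical
  obtain ⟨Y, hYc, hY⟩ := word_set M hM q
  let e := Y.orderEmbOfFin hYc
  refine ⟨fun r => if h : r < (2 ^ M).factorial ^ q then e ⟨r, h⟩ else 0, ?_, ?_⟩
  · intro r r' h h'
    have h0 : r < (2 ^ M).factorial ^ q := h.trans h'
    simp only [h0, h', dif_pos]
    exact e.strictMono (by simpa [Fin.lt_def] using h)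
  · intro r h
    simp only [h, dif_pos]
    exact hY _ (Finset.orderEmbOfFin_mem Y hYc _)

/-- the fixed head block -/
lemma head_block (M : ℕ) (hM : 1 ≤ M) :
    ∃ v : ℕ, 2 ^ (M * 2 ^ M - 1) ≤ v ∧ v < (2 ^ M) ^ (2 ^ M) ∧ Bal M (2 ^ M) v := by
  have hK1 : 1 < 2 ^ M := Nat.one_lt_two_pow (by omega)
  have hlt : ∀ W ∈ List.range (2 ^ M), W < 2 ^ M := by
    intro W hW
    simpa using hW
  refine ⟨Nat.ofDigits (2 ^ M) (List.range (2 ^ M)), ?_, ?_, ?_⟩
  · obtain ⟨k, hk⟩ : ∃ k, 2 ^ M = k + 1 := ⟨2 ^ M - 1, by omega⟩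
    have hk2 : 2 ^ (M - 1) ≤ k := by
      have : 2 ^ M = 2 * 2 ^ (M - 1) := by
        rw [← pow_succ']
        congr 1
        omega
      have h1 : 1 ≤ 2 ^ (M - 1) := Nat.one_le_two_pow
      omega
    have e1 : List.range (2 ^ M) = List.range k ++ [k] := by
      rw [hk, List.range_succ]
    rw [e1, Nat.ofDigits_append, Nat.ofDigits_singleton, List.length_range]
    have e2 : 2 ^ (M * 2 ^ M - 1) = (2 ^ M) ^ k * 2 ^ (M - 1) := by
      rw [← pow_mul, ← pow_add]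
      congr 1
      rw [hk]
      have : M * (k + 1) = M * k + M := by ring
      omega
    rw [e2]
    exact (Nat.mul_le_mul_left _ hk2).trans (Nat.le_add_left _ _)
  · have := Nat.ofDigits_lt_base_pow_length hK1 hlt
    rwa [List.length_range] at this
  · have := Bal_list (M := M) (List.range (2 ^ M)) hlt 1 (by
      intro g
      rw [one_mul, ← List.sum_toFinset _ List.nodup_range, List.toFinset_range])
    rwa [List.length_range] at this

/-- a list with prescribed word counts -/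
lemma count_list (K N : ℕ) (c : ℕ → ℕ) (hc : ∑ W ∈ Finset.range K, c W = N) :
    ∃ L : List ℕ, L.length = N ∧ (∀ W ∈ L, W < K) ∧
      ∀ g : ℕ → ℝ, (L.map g).sum = ∑ W ∈ Finset.range K, (c W : ℝ) * g W := by
  induction K generalizing N with
  | zero =>
    refine ⟨[], by simpa using hc, by simp, by simp⟩
  | succ K ih =>
    obtain ⟨L, h1, h2, h3⟩ := ih (∑ W ∈ Finset.range K, c W) rfl
    refine ⟨L ++ List.replicate (c K) K, ?_, ?_, ?_⟩
    · rw [List.length_append, List.length_replicate, h1, ← Finset.sum_range_succ, hc]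
    · intro W hW
      rw [List.mem_append] at hW
      rcases hW with hW | hW
      · exact (h2 W hW).trans (Nat.lt_succ_self _)
      · rw [List.mem_replicate] at hW
        omega
    · intro g
      rw [List.map_append, List.sum_append, h3, Finset.sum_range_succ]
      simp

/-- integer excess of the tilt -/
lemma tilt_suffix (M : ℕ) (hM : 1 ≤ M) (m0 Q0 k0 : ℕ) (hmQ : m0 * Q0 = M) (hk0 : k0 < 2 ^ m0)
    (s : ℤ) (hs : s = 1 ∨ s = -1 ∨ s = 0) :
    ∃ u : ℕ, u < (2 ^ M) ^ (2 ^ M * (M * 2 ^ M)) ∧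
      ∀ m Q k : ℕ, m * Q = M → k < 2 ^ m →
        D (2 ^ m) k (Q * (2 ^ M * (M * 2 ^ M))) u
          = (s : ℝ) * (2:ℝ) ^ m0 * ∑ W ∈ Finset.range (2 ^ M),
              D (2 ^ m0) k0 Q0 W * D (2 ^ m) k Q W := by
  have hK1 : 1 < 2 ^ M := Nat.one_lt_two_pow (by omega)
  have hm0 : 1 ≤ m0 := by
    rcases Nat.eq_zero_or_pos m0 with h | h
    · subst h; simp at hmQ; omega
    · exact h
  have hQ0 : 1 ≤ Q0 := by
    rcases Nat.eq_zero_or_pos Q0 with h | h
    · subst h; simp at hmQ; omega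
    · exact h
  have hm0M : m0 ≤ M := by nlinarith
  have hQ0M : Q0 ≤ M := by nlinarith
  have hpow : 2 ^ m0 ≤ 2 ^ M := Nat.pow_le_pow_right (by norm_num) hm0M
  set z := M * 2 ^ M with hz
  -- excess as an integer
  let ex : ℕ → ℤ := fun W => s * (2 ^ m0 * (occ (2 ^ m0) k0 Q0 W : ℤ) - Q0)
  have hexR : ∀ W, ((ex W : ℤ) : ℝ) = (s : ℝ) * (2:ℝ) ^ m0 * D (2 ^ m0) k0 Q0 W := by
    intro W
    simp only [ex, D]
    push_cast
    field_simp
  have hB1 : ∀ W, (2 ^ m0 * (occ (2 ^ m0) k0 Q0 W : ℤ)) ≤ z := by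
    intro W
    have h1 := occ_le (2 ^ m0) k0 Q0 W
    have : 2 ^ m0 * occ (2 ^ m0) k0 Q0 W ≤ z := by
      rw [hz, mul_comm M]
      exact Nat.mul_le_mul hpow (h1.trans hQ0M)
    exact_mod_cast this
  have hQz : (Q0 : ℤ) ≤ z := by
    have : Q0 ≤ z := by
      rw [hz]
      calc Q0 ≤ M := hQ0M
        _ = M * 1 := by ring
        _ ≤ M * 2 ^ M := Nat.mul_le_mul_left _ (by omega)
    exact_mod_cast this
  have hex0 : ∀ W, 0 ≤ (z : ℤ) + ex W := by
    intro W
    have h1 := hB1 W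
    have h2 : (0:ℤ) ≤ 2 ^ m0 * (occ (2 ^ m0) k0 Q0 W : ℤ) := by positivity
    have h3 : (0:ℤ) ≤ z := by positivity
    have h4 : (0:ℤ) ≤ (Q0:ℤ) := by positivity
    simp only [ex]
    rcases hs with rfl | rfl | rfl <;> linarith
  have hsumex : ∑ W ∈ Finset.range (2 ^ M), ex W = 0 := by
    have : ((∑ W ∈ Finset.range (2 ^ M), ex W : ℤ) : ℝ) = 0 := by
      push_cast
      rw [Finset.sum_congr rfl (fun W _ => hexR W), ← Finset.mul_sum]
      have e : 2 ^ M = (2 ^ m0) ^ Q0 := by rw [← pow_mul, hmQ]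
      rw [e, sum_D hk0, mul_zero]
    exact_mod_cast this
  obtain ⟨L, h1, h2, h3⟩ := count_list (2 ^ M) (2 ^ M * z) (fun W => ((z : ℤ) + ex W).toNat) (by
    have : ((∑ W ∈ Finset.range (2 ^ M), ((z : ℤ) + ex W).toNat : ℕ) : ℤ)
        = ((2 ^ M * z : ℕ) : ℤ) := by
      rw [Nat.cast_sum]
      rw [Finset.sum_congr rfl (fun W _ => Int.toNat_of_nonneg (hex0 W))]
      rw [Finset.sum_add_distrib, hsumex]
      simp
    exact_mod_cast this)
  refine ⟨Nat.ofDigits (2 ^ M) L, ?_, ?_⟩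
  · have := Nat.ofDigits_lt_base_pow_length hK1 h2
    rwa [h1] at this
  · intro m Q k hmQ' hk
    have e : 2 ^ M = (2 ^ m) ^ Q := by rw [← pow_mul, hmQ']
    have h5 := D_ofDigits (B := 2 ^ m) (Q := Q) (K := 2 ^ M) (by positivity) e k L h2
    rw [h1] at h5
    rw [h5, h3]
    have : ∀ W ∈ Finset.range (2 ^ M), ((((z : ℤ) + ex W).toNat : ℕ) : ℝ) * D (2 ^ m) k Q W
        = (z:ℝ) * D (2 ^ m) k Q W + (s:ℝ) * (2:ℝ) ^ m0 * (D (2 ^ m0) k0 Q0 W * D (2 ^ m) k Q W) := by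
      intro W _
      have : ((((z : ℤ) + ex W).toNat : ℕ) : ℝ) = (z:ℝ) + (ex W : ℝ) := by
        have h := Int.toNat_of_nonneg (hex0 W)
        have h' : ((((z : ℤ) + ex W).toNat : ℤ) : ℝ) = (((z : ℤ) + ex W : ℤ) : ℝ) := by rw [h]
        push_cast at h'
        exact_mod_cast h'
      rw [this, hexR]
      ring
    rw [Finset.sum_congr rfl this, Finset.sum_add_distrib, ← Finset.mul_sum, ← Finset.mul_sum]
    have e' : ∑ W ∈ Finset.range (2 ^ M), D (2 ^ m) k Q W = 0 := by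
      rw [e]
      exact sum_D hk Q
    rw [e', mul_zero, zero_add]

end Pool.Agent.W_MP_b5ad3e_nt
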